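import Pool.Agent.Lib.MP_28bef0_nt.Dyadic

/-!
# Sets with distinct consecutive sums: upper density strictly below one half
-/

set_option autoImplicit false

open Finset

namespace Pool.Agent.Lib.MP_28bef0_nt

variable {a : ℕ → ℕ}

/-- consecutive integers in the range are consecutive terms -/
theorem run (ha : StrictMono a) (n L : ℕ) (hL : 0 < L) (h : ∀ s < L, n + s ∈ Set.range a) :
    ∃ i, ∀ s < L, a (i + s) = n + s := by
  obtain ⟨i, hi⟩ := h 0 hL
  refine ⟨i, ?_⟩
  intro s
  induction s with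
  | zero => intro _; simpa using hi
  | succ s ih =>
    intro hs
    have h1 := ih (by omega)
    obtain ⟨j, hj⟩ := h (s + 1) hs
    have h2 : i + s < j := by
      by_contra hc
      have := ha.monotone (show j ≤ i + s by omega)
      omega
    have h3 := ha.monotone (show i + s + 1 ≤ j by omega)
    have h4 := ha (show i + s < i + s + 1 by omega)
    rw [← Nat.add_assoc]
    omega

/-- six and seven consecutive integers with the same sum cannot all be terms -/
theorem collide (ha : StrictMono a) (hd : Distinct a) (t : ℕ)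
    (h1 : ∀ s < 6, 7 * t + 1 + s ∈ Set.range a) (h2 : ∀ s < 7, 6 * t + s ∈ Set.range a) : False := by
  obtain ⟨i, hi⟩ := run ha (7 * t + 1) 6 (by norm_num) h1
  obtain ⟨k, hk⟩ := run ha (6 * t) 7 (by norm_num) h2
  have e1 : ∑ m ∈ Ico i (i + 6), a m = 42 * t + 21 := by
    rw [sum_Ico_eq_sum_range]
    have : i + 6 - i = 6 := by omega
    rw [this]
    simp only [sum_range_succ, sum_range_zero]
    rw [hi 0 (by norm_num), hi 1 (by norm_num), hi 2 (by norm_num), hi 3 (by norm_num), hi 4 (by norm_num),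
      hi 5 (by norm_num)]
    ring
  have e2 : ∑ m ∈ Ico k (k + 7), a m = 42 * t + 21 := by
    rw [sum_Ico_eq_sum_range]
    have : k + 7 - k = 7 := by omega
    rw [this]
    simp only [sum_range_succ, sum_range_zero]
    rw [hk 0 (by norm_num), hk 1 (by norm_num), hk 2 (by norm_num), hk 3 (by norm_num), hk 4 (by norm_num),
      hk 5 (by norm_num), hk 6 (by norm_num)]
    ring
  have := hd i (i + 6) k (k + 7) (by omega) (by omega) (e1.trans e2.symm)
  omega

/-- the lengths `2, 3, 4, 6, 9, 13, 19, ...` -/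
def rr : ℕ → ℕ
  | 0 => 2
  | n + 1 => 3 * rr n / 2

theorem two_le_rr (n : ℕ) : 2 ≤ rr n := by
  induction n with
  | zero => exact le_refl 2
  | succ n ih =>
    have : rr (n + 1) = 3 * rr n / 2 := rfl
    omega

theorem rr_strictMono : StrictMono rr := by
  refine strictMono_nat_of_lt_succ fun n => ?_
  have h1 : rr (n + 1) = 3 * rr n / 2 := rfl
  have h2 := two_le_rr n
  omega

theorem exists_rr {K : ℕ} (hK : 2 ≤ K) : ∃ n, rr n ≤ K ∧ 2 * (K + 1) ≤ 3 * rr n := by
  classical
  have hex : ∃ n, K < rr n := ⟨K + 1, lt_of_lt_of_le (Nat.lt_succ_self K) (rr_strictMono.id_le (K + 1))⟩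
  have h1 := Nat.find_spec hex
  have h0 : Nat.find hex ≠ 0 := by
    intro h
    rw [h] at h1
    have : rr 0 = 2 := rfl
    omega
  obtain ⟨n, hn⟩ := Nat.exists_eq_succ_of_ne_zero h0
  rw [hn] at h1
  have h2 : ¬ K < rr n := Nat.find_min hex (by omega)
  have h3 : rr (n + 1) = 3 * rr n / 2 := rfl
  have h4 : K < rr (n + 1) := h1
  exact ⟨n, by omega, by omega⟩

/-- telescoping over the lengths `rr j` -/
theorem tele (a : ℕ → ℕ) (N n : ℕ) : cnt a (N / 2) + 4 ≤
    ∑ j ∈ range n, (cnt a (N / rr j) + 1 - rr j - cnt a (2 * N / (3 * rr j))) + cnt a (N / rr n) + 2 * rr n := by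
  induction n with
  | zero => simp [rr]
  | succ n ih =>
    rw [sum_range_succ]
    have h1 : rr (n + 1) = 3 * rr n / 2 := rfl
    have h2 := two_le_rr n
    have h3 : 2 * N / (3 * rr n) ≤ N / rr (n + 1) := by
      calc 2 * N / (3 * rr n) ≤ 2 * N / (2 * rr (n + 1)) :=
            Nat.div_le_div_left (by omega) (by omega)
        _ = N / rr (n + 1) := Nat.mul_div_mul_left _ _ (by norm_num)
    have h4 := cnt_mono a h3
    omega

/-- sums in `(2 N / 3, N]`: lengths `1` and `rr j` -/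
theorem one_two (ha : StrictMono a) (hd : Distinct a) (n N : ℕ) :
    cnt a N + cnt a (N / 2) + 2 * N / 3 ≤ cnt a (2 * N / 3) + cnt a (N / rr n) + N + 3 * rr n := by
  classical
  have hnot : (1 : ℕ) ∉ (range n).image rr := by
    intro h
    obtain ⟨j, _, hj⟩ := mem_image.1 h
    have := two_le_rr j
    omega
  have hle : ∀ r ∈ insert 1 ((range n).image rr), 0 < r ∧ r ≤ rr n := by
    intro r hr
    rw [mem_insert, mem_image] at hr
    rcases hr with rfl | ⟨j, hj, rfl⟩
    · have := two_le_rr n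
      omega
    · rw [mem_range] at hj
      have h2 := two_le_rr j
      have h3 := rr_strictMono hj
      omega
  have h1 := count ha hd (insert 1 ((range n).image rr)) (fun r hr => (hle r hr).1)
    (fun r => 2 * N / (3 * r)) (fun r => N / r) (2 * N / 3 - rr n) N ?_ ?_
  rotate_left
  · intro r hr
    obtain ⟨hr0, hr1⟩ := hle r hr
    have h3 : 2 * N / (3 * r) = 2 * N / 3 / r := (Nat.div_div_eq_div_mul _ _ _).symm
    simp only [h3]
    have h4 := Nat.div_add_mod (2 * N / 3) r
    have h5 := Nat.mod_lt (2 * N / 3) hr0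
    omega
  · intro r _
    exact Nat.mul_div_le N r
  rw [sum_insert hnot, sum_image (fun x _ y _ h => rr_strictMono.injective h)] at h1
  simp only [Nat.div_one, mul_one] at h1
  have h2 := tele a N n
  omega

/-- the missing integers of `(N / 2, 2 N / 3]` -/
theorem missing (ha : StrictMono a) (hd : Distinct a) (N : ℕ) :
    (N : ℝ) / 84 - 2 ≤ 2 * (((2 * N / 3 : ℕ) : ℝ) - ((N / 2 : ℕ) : ℝ) - cnt a (2 * N / 3) + cnt a (N / 2)) := by
  classical
  set S := (Ioc (N / 2) (2 * N / 3)).filter (fun n => n ∉ Set.range a) with hS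
  set T := Ioc (N / 12) ((2 * N / 3 - 6) / 7) with hT
  have hle : N / 2 ≤ 2 * N / 3 := by omega
  have hmono := cnt_mono a hle
  have hcard : S.card + (cnt a (2 * N / 3) - cnt a (N / 2)) = 2 * N / 3 - N / 2 := by
    have h1 := card_filter_add_card_filter_not (s := Ioc (N / 2) (2 * N / 3)) (fun n => n ∈ Set.range a)
    rw [filter_range_eq ha, card_image_of_injective _ ha.injective, Nat.card_Ico, Nat.card_Ioc] at h1
    rw [← hS] at h1
    omega
  have h5 : (S.card : ℝ) =
      ((2 * N / 3 : ℕ) : ℝ) - ((N / 2 : ℕ) : ℝ) - cnt a (2 * N / 3) + cnt a (N / 2) := by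
    have h6 : S.card = 2 * N / 3 - N / 2 - (cnt a (2 * N / 3) - cnt a (N / 2)) := by omega
    rw [h6, Nat.cast_sub (by omega), Nat.cast_sub hle, Nat.cast_sub hmono]
    ring
  rw [← h5]
  rcases Nat.lt_or_ge N 168 with hN | hN
  · have h6 : (N : ℝ) < 168 := by exact_mod_cast hN
    have h7 : (0 : ℝ) ≤ S.card := by positivity
    linarith
  set S1 := S.filter (fun m => 4 * N / 7 + 1 < m) with hS1
  set S2 := S.filter (fun m => ¬ 4 * N / 7 + 1 < m) with hS2
  have hS12 : S1.card + S2.card = S.card := card_filter_add_card_filter_not (s := S) (fun m => 4 * N / 7 + 1 < m)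
  have hsub : T ⊆ S1.image (fun m => m / 7) ∪ (S2.image (fun m => m / 6) ∪ S2.image (fun m => m / 6 - 1)) := by
    intro t ht
    rw [hT, mem_Ioc] at ht
    by_contra hno
    rw [mem_union, mem_union, not_or, not_or] at hno
    obtain ⟨n1, n2, n3⟩ := hno
    have hin : ∀ m, N / 2 < m → m ≤ 2 * N / 3 → ((4 * N / 7 + 1 < m ∧ m / 7 = t) ∨
        (¬ 4 * N / 7 + 1 < m ∧ (m / 6 = t ∨ m / 6 - 1 = t))) → m ∈ Set.range a := by
      intro m hm1 hm2 hm
      by_contra hc
      have hmS : m ∈ S := by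
        rw [hS, mem_filter, mem_Ioc]
        exact ⟨⟨hm1, hm2⟩, hc⟩
      rcases hm with ⟨hm0, hm⟩ | ⟨hm0, hm | hm⟩
      · exact n1 (mem_image.2 ⟨m, mem_filter.2 ⟨hmS, hm0⟩, hm⟩)
      · exact n2 (mem_image.2 ⟨m, mem_filter.2 ⟨hmS, hm0⟩, hm⟩)
      · exact n3 (mem_image.2 ⟨m, mem_filter.2 ⟨hmS, hm0⟩, hm⟩)
    refine collide ha hd t ?_ ?_
    · intro s hs
      exact hin _ (by omega) (by omega) (Or.inl ⟨by omega, by omega⟩)
    · intro s hs
      refine hin _ (by omega) (by omega) (Or.inr ⟨by omega, ?_⟩)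
      rcases Nat.lt_or_ge s 6 with h | h
      · exact Or.inl (by omega)
      · exact Or.inr (by omega)
  have h3 : T.card ≤ 2 * S.card := by
    refine (card_le_card hsub).trans ?_
    refine (card_union_le _ _).trans ?_
    have h4 := card_union_le (S2.image (fun m => m / 6)) (S2.image (fun m => m / 6 - 1))
    have h5 := card_image_le (s := S1) (f := fun m => m / 7)
    have h6 := card_image_le (s := S2) (f := fun m => m / 6)
    have h7 := card_image_le (s := S2) (f := fun m => m / 6 - 1)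
    omega
  rw [hT, Nat.card_Ioc] at h3
  have h4 : N ≤ 84 * (2 * S.card) + 168 := by omega
  have h6 : (N : ℝ) ≤ 84 * (2 * (S.card : ℝ)) + 168 := by exact_mod_cast h4
  linarith

/-- **Upper density at most `1 / 2 - 1 / 168`, with an explicit error term.** -/
theorem cnt_le_below (ha : StrictMono a) (hd : Distinct a) (hpos : ∀ n, 0 < a n) (N : ℕ) :
    (cnt a N : ℝ) ≤ (1 / 2 - 1 / 168) * N + 7 * Real.sqrt N := by
  have c1 : ∀ y : ℕ, cnt a y ≤ y := by
    intro y
    have := cnt_sub_le ha (Nat.zero_le y)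
    rw [cnt_zero hpos] at this
    omega
  have hs0 := Real.sqrt_nonneg (N : ℝ)
  have hss : (N : ℝ) = Real.sqrt N * Real.sqrt N := (Real.mul_self_sqrt (by positivity)).symm
  rcases Nat.lt_or_ge N 4 with hN | hN
  · have h1 : (cnt a N : ℝ) ≤ N := by exact_mod_cast c1 N
    have h2 : (N : ℝ) ≤ 4 := by exact_mod_cast hN.le
    have h3 : Real.sqrt N ≤ 2 := by
      rw [Real.sqrt_le_iff]
      exact ⟨by norm_num, by linarith⟩
    nlinarith
  have hs2 : (2 : ℝ) ≤ Real.sqrt N := by
    rw [Real.le_sqrt' (by norm_num)]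
    have : (4 : ℝ) ≤ N := by exact_mod_cast hN
    linarith
  have hK : 2 ≤ Nat.sqrt N := by
    rw [Nat.le_sqrt]
    omega
  obtain ⟨n, hn1, hn2⟩ := exists_rr hK
  have h1 := one_two ha hd n N
  have h3 := missing ha hd N
  have h2 : (rr n : ℝ) ≤ Real.sqrt N := by
    have h4 : ((Nat.sqrt N : ℕ) : ℝ) ≤ Real.sqrt N := Real.nat_sqrt_le_real_sqrt
    have h5 : (rr n : ℝ) ≤ ((Nat.sqrt N : ℕ) : ℝ) := by exact_mod_cast hn1
    linarith
  have h4 : 2 * Real.sqrt N ≤ 3 * rr n := by
    have h5 : Real.sqrt N < (Nat.sqrt N : ℕ) + 1 := Real.real_sqrt_lt_nat_sqrt_succ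
    have h6 : 2 * (((Nat.sqrt N : ℕ) : ℝ) + 1) ≤ 3 * rr n := by exact_mod_cast hn2
    linarith
  have hr0 : (0 : ℝ) < rr n := by
    have := two_le_rr n
    exact_mod_cast (show 0 < rr n by omega)
  have h5 : (cnt a (N / rr n) : ℝ) ≤ 3 / 2 * Real.sqrt N := by
    have h6 : (cnt a (N / rr n) : ℝ) ≤ (N : ℝ) / rr n := by
      refine (show (cnt a (N / rr n) : ℝ) ≤ ((N / rr n : ℕ) : ℝ) by exact_mod_cast c1 _).trans ?_
      exact Nat.cast_div_le
    refine h6.trans ?_
    rw [div_le_iff₀ hr0]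
    nlinarith
  have h1' : (cnt a N : ℝ) + cnt a (N / 2) + ((2 * N / 3 : ℕ) : ℝ) ≤
      cnt a (2 * N / 3) + cnt a (N / rr n) + N + 3 * rr n := by exact_mod_cast h1
  have h7 : 2 * (N : ℝ) ≤ 3 * ((2 * N / 3 : ℕ) : ℝ) + 2 := by
    have : 2 * N ≤ 3 * (2 * N / 3) + 2 := by omega
    exact_mod_cast this
  have h8 : (N : ℝ) ≤ 2 * ((N / 2 : ℕ) : ℝ) + 1 := by
    have : N ≤ 2 * (N / 2) + 1 := by omega
    exact_mod_cast this
  have h9 : ((2 * N / 3 : ℕ) : ℝ) ≤ 2 * N / 3 := by
    have := Nat.cast_div_le (α := ℝ) (m := 2 * N) (n := 3)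
    push_cast at this
    exact this
  linarith

end Pool.Agent.Lib.MP_28bef0_nt
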