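import Mathlib

/-!
# Sets with distinct consecutive sums: dyadic counting of block sums
-/

set_option autoImplicit false

open Finset

namespace Pool.Agent.Lib.MP_28bef0_nt

/-- number of indices `m` with `a m ≤ y` -/
noncomputable def cnt (a : ℕ → ℕ) (y : ℕ) : ℕ := ((range (y + 1)).filter (fun m => a m ≤ y)).card

variable {a : ℕ → ℕ}

theorem id_le_of (ha : StrictMono a) (m : ℕ) : m ≤ a m := ha.id_le m

theorem filter_eq_range (ha : StrictMono a) (y : ℕ) :
    (range (y + 1)).filter (fun m => a m ≤ y) = range (cnt a y) := by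
  -- the filter is an initial segment
  have hdown : ∀ m ∈ (range (y + 1)).filter (fun m => a m ≤ y), ∀ l, l ≤ m →
      l ∈ (range (y + 1)).filter (fun m => a m ≤ y) := by
    intro m hm l hl
    rw [mem_filter, mem_range] at hm ⊢
    exact ⟨by omega, (ha.monotone hl).trans hm.2⟩
  have hsub : range (cnt a y) ⊆ (range (y + 1)).filter (fun m => a m ≤ y) := by
    intro l hl
    rw [mem_range] at hl
    by_contra hno
    have : (range (y + 1)).filter (fun m => a m ≤ y) ⊆ range l := by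
      intro m hm
      rw [mem_range]
      by_contra hc
      exact hno (hdown m hm l (by omega))
    have h2 := card_le_card this
    rw [card_range] at h2
    unfold cnt at hl
    omega
  exact (eq_of_subset_of_card_le hsub (by rw [card_range]; rfl)).symm

theorem lt_cnt_iff (ha : StrictMono a) (y m : ℕ) : m < cnt a y ↔ a m ≤ y := by
  rw [← mem_range, ← filter_eq_range ha y, mem_filter, mem_range]
  constructor
  · exact fun h => h.2
  · intro h
    have := id_le_of ha m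
    exact ⟨by omega, h⟩

theorem cnt_mono (a : ℕ → ℕ) {y z : ℕ} (h : y ≤ z) : cnt a y ≤ cnt a z := by
  unfold cnt
  refine card_le_card ?_
  intro m hm
  rw [mem_filter, mem_range] at hm ⊢
  exact ⟨by omega, hm.2.trans h⟩

/-- number of indices with `y < a m ≤ z` is at most `z - y` -/
theorem cnt_sub_le (ha : StrictMono a) {y z : ℕ} (h : y ≤ z) : cnt a z - cnt a y ≤ z - y := by
  have h1 : ((Ico (cnt a y) (cnt a z)).image a) ⊆ Ioc y z := by
    intro w hw
    rw [mem_image] at hw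
    obtain ⟨m, hm, rfl⟩ := hw
    rw [mem_Ico] at hm
    rw [mem_Ioc]
    refine ⟨?_, (lt_cnt_iff ha z m).1 hm.2⟩
    by_contra hc
    have := (lt_cnt_iff ha y m).2 (by omega)
    omega
  have h2 := card_le_card h1
  rw [card_image_of_injective _ ha.injective, Nat.card_Ico, Nat.card_Ioc] at h2
  exact h2

theorem sum_block_gt (ha : StrictMono a) {y u r : ℕ} (hr : 0 < r) (hu : cnt a y ≤ u) :
    r * y < ∑ m ∈ Ico u (u + r), a m := by
  have : ∀ m ∈ Ico u (u + r), y < a m := by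
    intro m hm
    rw [mem_Ico] at hm
    by_contra hc
    have := (lt_cnt_iff ha y m).2 (by omega)
    omega
  calc r * y = ∑ m ∈ Ico u (u + r), y := by simp
    _ < ∑ m ∈ Ico u (u + r), a m := by
        refine sum_lt_sum_of_nonempty ?_ this
        rw [nonempty_Ico]; omega

theorem sum_block_le (ha : StrictMono a) {z u r : ℕ} (hu : u + r ≤ cnt a z) :
    ∑ m ∈ Ico u (u + r), a m ≤ r * z := by
  have : ∀ m ∈ Ico u (u + r), a m ≤ z := by
    intro m hm
    rw [mem_Ico] at hm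
    exact (lt_cnt_iff ha z m).1 (by omega)
  calc ∑ m ∈ Ico u (u + r), a m ≤ ∑ m ∈ Ico u (u + r), z := sum_le_sum this
    _ = r * z := by simp

/-- the hypothesis of distinct block sums -/
def Distinct (a : ℕ → ℕ) : Prop :=
  ∀ i j k l : ℕ, i < j → k < l →
    ∑ m ∈ Ico i j, a m = ∑ m ∈ Ico k l, a m → i = k ∧ j = l

/-- blocks of length `r` inside `(y, z]` : starting points -/
noncomputable def starts (a : ℕ → ℕ) (y z r : ℕ) : Finset ℕ := Ico (cnt a y) (cnt a z + 1 - r)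

/-- General counting: if for every `r` in a finite set of positive lengths the blocks of length `r` inside
`(y r, z r]` have `X ≤ r * y r`, `r * z r ≤ Y`, the number of these blocks is at most `Y - X`. -/
theorem count (ha : StrictMono a) (hd : Distinct a) (R : Finset ℕ) (hR : ∀ r ∈ R, 0 < r)
    (y z : ℕ → ℕ) (X Y : ℕ) (hX : ∀ r ∈ R, X ≤ r * y r) (hY : ∀ r ∈ R, r * z r ≤ Y) :
    ∑ r ∈ R, (cnt a (z r) + 1 - r - cnt a (y r)) ≤ Y - X := by
  have h1 : (R.sigma (fun r => starts a (y r) (z r) r)).card ≤ (Ioc X Y).card := by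
    refine card_le_card_of_injOn (fun p => ∑ m ∈ Ico p.2 (p.2 + p.1), a m) ?_ ?_
    · intro p hp
      rw [mem_coe, mem_sigma] at hp
      obtain ⟨hp1, hp2⟩ := hp
      unfold starts at hp2
      rw [mem_Ico] at hp2
      rw [mem_coe, mem_Ioc]
      constructor
      · exact (hX _ hp1).trans_lt (sum_block_gt ha (hR _ hp1) hp2.1)
      · exact (sum_block_le ha (by omega)).trans (hY _ hp1)
    · intro p hp q hq hpq
      rw [mem_coe, mem_sigma] at hp hq
      have h := hd p.2 (p.2 + p.1) q.2 (q.2 + q.1) (by have := hR _ hp.1; omega)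
        (by have := hR _ hq.1; omega) hpq
      obtain ⟨p1, p2⟩ := p
      obtain ⟨q1, q2⟩ := q
      simp only at h
      obtain ⟨h2, h3⟩ := h
      have : p1 = q1 := by omega
      subst this
      subst h2
      rfl
  rw [card_sigma, Nat.card_Ioc] at h1
  refine le_trans (le_of_eq ?_) h1
  refine sum_congr rfl fun r _ => ?_
  unfold starts
  rw [Nat.card_Ico]

end Pool.Agent.Lib.MP_28bef0_nt

namespace Pool.Agent.Lib.MP_28bef0_nt

variable {a : ℕ → ℕ}

/-- the harmonic sum of the elements in `(y, z]` -/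
noncomputable def harm (a : ℕ → ℕ) (y z : ℕ) : ℝ := ∑ m ∈ Ico (cnt a y) (cnt a z), (1 : ℝ) / a m

theorem harm_add (a : ℕ → ℕ) {x y z : ℕ} (h1 : x ≤ y) (h2 : y ≤ z) :
    harm a x y + harm a y z = harm a x z := by
  unfold harm
  exact sum_Ico_consecutive _ (cnt_mono a h1) (cnt_mono a h2)

theorem harm_nonneg (a : ℕ → ℕ) (y z : ℕ) : 0 ≤ harm a y z :=
  sum_nonneg fun _ _ => by positivity

theorem harm_mono (a : ℕ → ℕ) {x x' z z' : ℕ} (h1 : x' ≤ x) (h2 : x ≤ z) (h3 : z ≤ z') :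
    harm a x z ≤ harm a x' z' := by
  rw [← harm_add a h1 (h2.trans h3), ← harm_add a h2 h3]
  have := harm_nonneg a x' x
  have := harm_nonneg a z z'
  linarith

theorem harm_le (ha : StrictMono a) {y z : ℕ} (hy : 0 < y) :
    harm a y z ≤ ((cnt a z - cnt a y : ℕ) : ℝ) / y := by
  unfold harm
  calc ∑ m ∈ Ico (cnt a y) (cnt a z), (1 : ℝ) / a m ≤ ∑ m ∈ Ico (cnt a y) (cnt a z), (1 : ℝ) / y := by
        refine sum_le_sum fun m hm => ?_
        rw [mem_Ico] at hm
        have h1 : y < a m := by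
          by_contra hc
          have := (lt_cnt_iff ha y m).2 (by omega)
          omega
        have hy' : (0 : ℝ) < y := by exact_mod_cast hy
        exact one_div_le_one_div_of_le hy' (by exact_mod_cast h1.le)
    _ = ((cnt a z - cnt a y : ℕ) : ℝ) / y := by
        rw [sum_const, Nat.card_Ico, nsmul_eq_mul]; ring

theorem group_sum (g h : ℕ → ℝ) (L : ℕ)
    (hg : ∀ i, i < L → ∀ r, 2 ^ i ≤ r → r < 2 ^ (i + 1) → h i ≤ g r) :
    ∑ i ∈ range L, 2 ^ i * h i ≤ ∑ r ∈ Ico 1 (2 ^ L), g r := by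
  induction L with
  | zero => simp
  | succ L ih =>
    rw [sum_range_succ]
    have h1 : (1 : ℕ) ≤ 2 ^ L := Nat.one_le_two_pow
    have h2 : 2 ^ L ≤ 2 ^ (L + 1) := Nat.pow_le_pow_right (by norm_num) (by omega)
    rw [← sum_Ico_consecutive g h1 h2]
    refine add_le_add (ih fun i hi => hg i (by omega)) ?_
    calc (2 : ℝ) ^ L * h L = ∑ r ∈ Ico (2 ^ L) (2 ^ (L + 1)), h L := by
          rw [sum_const, Nat.card_Ico, nsmul_eq_mul]
          congr 1
          rw [pow_succ]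
          push_cast [show 2 ^ L * 2 - 2 ^ L = 2 ^ L by omega]
          norm_num
      _ ≤ _ := by
          refine sum_le_sum fun r hr => ?_
          rw [mem_Ico] at hr
          exact hg L (by omega) r hr.1 hr.2

/-- **Main estimate.** -/
theorem harm_dyadic (ha : StrictMono a) (hd : Distinct a) (l : ℕ) :
    harm a (2 ^ (l + 1)) (2 ^ (2 * l + 2)) ≤ 13 / 3 := by
  -- counting
  have h1 := count ha hd (Ico 1 (2 ^ (l + 1))) (fun r hr => by rw [mem_Ico] at hr; omega)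
    (fun r => 2 ^ (2 * l + 1 - Nat.log 2 r)) (fun r => 2 ^ (2 * l + 2 - Nat.log 2 r))
    (2 ^ (2 * l + 1)) (2 ^ (2 * l + 3)) ?_ ?_
  rotate_left
  · intro r hr
    rw [mem_Ico] at hr
    have hlog : 2 ^ Nat.log 2 r ≤ r := Nat.pow_log_le_self 2 (by omega)
    have hlt : Nat.log 2 r < l + 1 := Nat.log_lt_of_lt_pow (by omega) hr.2
    calc 2 ^ (2 * l + 1) = 2 ^ Nat.log 2 r * 2 ^ (2 * l + 1 - Nat.log 2 r) := by
          rw [← pow_add]; congr 1; omega
      _ ≤ _ := Nat.mul_le_mul_right _ hlog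
  · intro r hr
    rw [mem_Ico] at hr
    have hlog : r < 2 ^ (Nat.log 2 r + 1) := Nat.lt_pow_succ_log_self (by norm_num) r
    have hlt : Nat.log 2 r < l + 1 := Nat.log_lt_of_lt_pow (by omega) hr.2
    calc r * 2 ^ (2 * l + 2 - Nat.log 2 r) ≤ 2 ^ (Nat.log 2 r + 1) * 2 ^ (2 * l + 2 - Nat.log 2 r) :=
          Nat.mul_le_mul_right _ hlog.le
      _ = 2 ^ (2 * l + 3) := by
          rw [← pow_add]; congr 1; omega
  -- grouping
  set A : ℕ → ℕ := fun i => cnt a (2 ^ (2 * l + 2 - i)) - cnt a (2 ^ (2 * l + 1 - i)) with hA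
  have h2 := group_sum (fun r => ((cnt a (2 ^ (2 * l + 2 - Nat.log 2 r)) + 1 - r -
    cnt a (2 ^ (2 * l + 1 - Nat.log 2 r)) : ℕ) : ℝ)) (fun i => (A i : ℝ) - 2 ^ (i + 1)) (l + 1) ?_
  rotate_left
  · intro i hi r hr1 hr2
    have hlog : Nat.log 2 r = i := by
      rw [Nat.log_eq_iff (Or.inr ⟨by norm_num, by have := Nat.one_le_two_pow (n := i); omega⟩)]
      exact ⟨hr1, hr2⟩
    simp only [hlog, hA]
    have hmono := cnt_mono a (show 2 ^ (2 * l + 1 - i) ≤ 2 ^ (2 * l + 2 - i) from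
      Nat.pow_le_pow_right (by norm_num) (by omega))
    have h3 : (cnt a (2 ^ (2 * l + 2 - i)) - cnt a (2 ^ (2 * l + 1 - i)) : ℕ) ≤
        (cnt a (2 ^ (2 * l + 2 - i)) + 1 - r - cnt a (2 ^ (2 * l + 1 - i))) + 2 ^ (i + 1) := by omega
    have h4 : ((cnt a (2 ^ (2 * l + 2 - i)) - cnt a (2 ^ (2 * l + 1 - i)) : ℕ) : ℝ) ≤
        ((cnt a (2 ^ (2 * l + 2 - i)) + 1 - r - cnt a (2 ^ (2 * l + 1 - i)) : ℕ) : ℝ) + 2 ^ (i + 1) := by
      exact_mod_cast h3
    linarith
  have h3 : (∑ r ∈ Ico 1 (2 ^ (l + 1)), ((cnt a (2 ^ (2 * l + 2 - Nat.log 2 r)) + 1 - r -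
    cnt a (2 ^ (2 * l + 1 - Nat.log 2 r)) : ℕ) : ℝ)) ≤ 3 * 2 ^ (2 * l + 1) := by
    have h4 : ∑ r ∈ Ico 1 (2 ^ (l + 1)), (cnt a (2 ^ (2 * l + 2 - Nat.log 2 r)) + 1 - r -
      cnt a (2 ^ (2 * l + 1 - Nat.log 2 r))) ≤ 3 * 2 ^ (2 * l + 1) := by
      refine h1.trans ?_
      rw [show 2 * l + 3 = (2 * l + 1) + 2 by ring, pow_add]
      omega
    exact_mod_cast h4
  have h5 : ∑ i ∈ range (l + 1), (2 : ℝ) ^ i * ((A i : ℝ) - 2 ^ (i + 1)) ≤ 3 * 2 ^ (2 * l + 1) :=
    h2.trans h3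
  have h6 : ∑ i ∈ range (l + 1), (2 : ℝ) ^ i * 2 ^ (i + 1) ≤ 8 / 3 * 4 ^ l := by
    have : ∀ n : ℕ, ∑ i ∈ range (n + 1), (2 : ℝ) ^ i * 2 ^ (i + 1) = (8 * 4 ^ n - 2) / 3 := by
      intro n
      induction n with
      | zero => norm_num
      | succ n ih =>
        rw [sum_range_succ, ih]
        have : (2 : ℝ) ^ (n + 1) * 2 ^ (n + 1 + 1) = 8 * 4 ^ n := by
          rw [show (4 : ℝ) = 2 ^ 2 by norm_num, ← pow_mul, ← pow_add,
            show (8 : ℝ) = 2 ^ 3 by norm_num, ← pow_add]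
          congr 1; ring
        rw [this, pow_succ]
        ring
    rw [this]
    linarith
  have h7 : ∑ i ∈ range (l + 1), (2 : ℝ) ^ i * (A i : ℝ) ≤ 26 / 3 * 4 ^ l := by
    have h8 : ∑ i ∈ range (l + 1), (2 : ℝ) ^ i * (A i : ℝ) =
        ∑ i ∈ range (l + 1), (2 : ℝ) ^ i * ((A i : ℝ) - 2 ^ (i + 1)) +
        ∑ i ∈ range (l + 1), (2 : ℝ) ^ i * 2 ^ (i + 1) := by
      rw [← sum_add_distrib]
      refine sum_congr rfl fun i _ => ?_
      ring
    have h9 : (2 : ℝ) ^ (2 * l + 1) = 2 * 4 ^ l := by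
      rw [pow_succ, pow_mul]; norm_num; ring
    rw [h8]
    rw [h9] at h5
    linarith
  -- the harmonic sum
  have h10 : ∀ n, n ≤ l + 1 → ∑ i ∈ range n, harm a (2 ^ (2 * l + 1 - i)) (2 ^ (2 * l + 2 - i)) =
      harm a (2 ^ (2 * l + 2 - n)) (2 ^ (2 * l + 2)) := by
    intro n
    induction n with
    | zero => intro _; simp [harm]
    | succ n ih =>
      intro hn
      rw [sum_range_succ, ih (by omega), add_comm]
      rw [show 2 * l + 2 - (n + 1) = 2 * l + 1 - n by omega]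
      exact harm_add a (Nat.pow_le_pow_right (by norm_num) (by omega))
        (Nat.pow_le_pow_right (by norm_num) (by omega))
  have h11 := h10 (l + 1) le_rfl
  rw [show 2 * l + 2 - (l + 1) = l + 1 by omega] at h11
  rw [← h11]
  have h12 : ∀ i ∈ range (l + 1), harm a (2 ^ (2 * l + 1 - i)) (2 ^ (2 * l + 2 - i)) ≤
      (2 : ℝ) ^ i * (A i : ℝ) / (2 * 4 ^ l) := by
    intro i hi
    rw [mem_range] at hi
    refine (harm_le ha (by positivity)).trans (le_of_eq ?_)
    rw [div_eq_div_iff (by positivity) (by positivity)]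
    have : (2 : ℝ) * 4 ^ l = 2 ^ i * 2 ^ (2 * l + 1 - i) := by
      rw [← pow_add, show i + (2 * l + 1 - i) = 2 * l + 1 by omega, pow_succ, pow_mul]
      norm_num; ring
    rw [this]
    push_cast
    ring
  refine (sum_le_sum h12).trans ?_
  rw [← sum_div, div_le_iff₀ (by positivity)]
  linarith

/-- **The harmonic sum over `(x, x ^ 2]` is bounded.** -/
theorem harm_sq (ha : StrictMono a) (hd : Distinct a) {x : ℕ} (hx : 0 < x) :
    harm a x (x ^ 2) ≤ 16 / 3 := by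
  set l := Nat.log 2 x with hl
  have h1 : 2 ^ l ≤ x := Nat.pow_log_le_self 2 (by omega)
  have h2 : x < 2 ^ (l + 1) := Nat.lt_pow_succ_log_self (by norm_num) x
  have h3 : x ^ 2 ≤ 2 ^ (2 * l + 2) := by
    calc x ^ 2 ≤ (2 ^ (l + 1)) ^ 2 := Nat.pow_le_pow_left h2.le 2
      _ = 2 ^ (2 * l + 2) := by rw [← pow_mul]; congr 1; ring
  have h4 : harm a x (x ^ 2) ≤ harm a (2 ^ l) (2 ^ (2 * l + 2)) :=
    harm_mono a h1 (by nlinarith) h3
  have h5 : harm a (2 ^ l) (2 ^ (l + 1)) + harm a (2 ^ (l + 1)) (2 ^ (2 * l + 2)) =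
      harm a (2 ^ l) (2 ^ (2 * l + 2)) :=
    harm_add a (Nat.pow_le_pow_right (by norm_num) (by omega))
      (Nat.pow_le_pow_right (by norm_num) (by omega))
  have h6 : harm a (2 ^ l) (2 ^ (l + 1)) ≤ 1 := by
    refine (harm_le ha (by positivity)).trans ?_
    rw [div_le_one (by positivity)]
    have h7 := cnt_sub_le ha (show 2 ^ l ≤ 2 ^ (l + 1) from Nat.pow_le_pow_right (by norm_num) (by omega))
    have h8 : 2 ^ (l + 1) - 2 ^ l = 2 ^ l := by rw [pow_succ]; omega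
    rw [h8] at h7
    exact_mod_cast h7
  have h9 := harm_dyadic ha hd l
  linarith

/-- `cnt` and the counting function of the range -/
theorem filter_range_eq (ha : StrictMono a) (y z : ℕ) [DecidablePred (fun n => n ∈ Set.range a)] :
    (Ioc y z).filter (fun n => n ∈ Set.range a) = (Ico (cnt a y) (cnt a z)).image a := by
  ext n
  rw [mem_filter, mem_Ioc, mem_image]
  constructor
  · rintro ⟨⟨h1, h2⟩, m, rfl⟩
    refine ⟨m, ?_, rfl⟩
    rw [mem_Ico]
    refine ⟨?_, (lt_cnt_iff ha z m).2 h2⟩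
    by_contra hc
    have := (lt_cnt_iff ha y m).1 (by omega)
    omega
  · rintro ⟨m, hm, rfl⟩
    rw [mem_Ico] at hm
    refine ⟨⟨?_, (lt_cnt_iff ha z m).1 hm.2⟩, m, rfl⟩
    by_contra hc
    have := (lt_cnt_iff ha y m).2 (by omega)
    omega

theorem harm_eq (ha : StrictMono a) (y z : ℕ) [DecidablePred (fun n => n ∈ Set.range a)] :
    ∑ n ∈ (Ioc y z).filter (fun n => n ∈ Set.range a), (1 : ℝ) / n = harm a y z := by
  rw [filter_range_eq ha, sum_image (fun x _ y _ h => ha.injective h)]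
  rfl

theorem cnt_zero (hpos : ∀ n, 0 < a n) : cnt a 0 = 0 := by
  unfold cnt
  rw [card_eq_zero, filter_eq_empty_iff]
  intro m _
  have := hpos m
  omega

theorem card_eq (ha : StrictMono a) (hpos : ∀ n, 0 < a n) (N : ℕ)
    [DecidablePred (fun n => n ∈ Set.range a)] :
    ((Icc 1 N).filter (fun n => n ∈ Set.range a)).card = cnt a N := by
  have : Icc 1 N = Ioc 0 N := by
    ext n; rw [mem_Icc, mem_Ioc]; omega
  rw [this, filter_range_eq ha, card_image_of_injective _ ha.injective, Nat.card_Ico, cnt_zero hpos]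
  omega

/-- **Upper density at most `1 / 2`, with an explicit error term.** -/
theorem cnt_le_half (ha : StrictMono a) (hd : Distinct a) (hpos : ∀ n, 0 < a n) (J N : ℕ) :
    (cnt a N : ℝ) ≤ N / 2 + (N : ℝ) / 2 ^ J + 2 * 2 ^ J := by
  have h1 := count ha hd ((range J).image (fun j => 2 ^ j)) (fun r hr => by
      rw [mem_image] at hr
      obtain ⟨j, _, rfl⟩ := hr
      positivity)
    (fun r => N / (2 * r)) (fun r => N / r) (N / 2 - 2 ^ J) N ?_ ?_
  rotate_left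
  · intro r hr
    rw [mem_image] at hr
    obtain ⟨j, hj, rfl⟩ := hr
    rw [mem_range] at hj
    have h2 : 2 ^ j ≤ 2 ^ J := Nat.pow_le_pow_right (by norm_num) hj.le
    have h3 : N / (2 * 2 ^ j) = N / 2 / 2 ^ j := (Nat.div_div_eq_div_mul _ _ _).symm
    rw [h3]
    have h4 := Nat.div_add_mod (N / 2) (2 ^ j)
    have h5 := Nat.mod_lt (N / 2) (show 0 < 2 ^ j by positivity)
    omega
  · intro r _
    exact Nat.mul_div_le N r
  rw [sum_image (fun x _ y _ h => Nat.pow_right_injective (le_refl 2) h)] at h1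
  have h2 : ∀ n, (cnt a N : ℤ) - cnt a (N / 2 ^ n) ≤
      ∑ j ∈ range n, ((cnt a (N / 2 ^ j) + 1 - 2 ^ j - cnt a (N / (2 * 2 ^ j)) : ℕ) : ℤ) +
        (2 ^ n - 1) := by
    intro n
    induction n with
    | zero => simp
    | succ n ih =>
      rw [sum_range_succ]
      have e1 : N / 2 ^ (n + 1) = N / (2 * 2 ^ n) := by rw [pow_succ, mul_comm]
      rw [e1]
      have e2 : (cnt a (N / 2 ^ n) : ℤ) - cnt a (N / (2 * 2 ^ n)) ≤
          ((cnt a (N / 2 ^ n) + 1 - 2 ^ n - cnt a (N / (2 * 2 ^ n)) : ℕ) : ℤ) + 2 ^ n := by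
        have : cnt a (N / 2 ^ n) ≤
          (cnt a (N / 2 ^ n) + 1 - 2 ^ n - cnt a (N / (2 * 2 ^ n))) + cnt a (N / (2 * 2 ^ n)) + 2 ^ n := by
          omega
        have h9 : (cnt a (N / 2 ^ n) : ℤ) ≤
          ((cnt a (N / 2 ^ n) + 1 - 2 ^ n - cnt a (N / (2 * 2 ^ n)) : ℕ) : ℤ) +
            cnt a (N / (2 * 2 ^ n)) + 2 ^ n := by exact_mod_cast this
        linarith
      have e3 : (2 : ℤ) ^ (n + 1) = 2 * 2 ^ n := by rw [pow_succ]; ring
      rw [e3]
      linarith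
  have h3 := h2 J
  have h4 : cnt a (N / 2 ^ J) ≤ N / 2 ^ J := by
    have := cnt_sub_le ha (Nat.zero_le (N / 2 ^ J))
    rw [cnt_zero hpos] at this
    omega
  have h5 : (N : ℝ) - ((N / 2 - 2 ^ J : ℕ) : ℝ) ≤ N / 2 + 1 / 2 + 2 ^ J := by
    have h6 : N ≤ 2 * (N / 2) + 1 := by omega
    have h7 : N / 2 ≤ (N / 2 - 2 ^ J) + 2 ^ J := by omega
    have h6' : (N : ℝ) ≤ 2 * ((N / 2 : ℕ) : ℝ) + 1 := by exact_mod_cast h6
    have h7' : ((N / 2 : ℕ) : ℝ) ≤ ((N / 2 - 2 ^ J : ℕ) : ℝ) + 2 ^ J := by exact_mod_cast h7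
    linarith
  have h8 : ((∑ j ∈ range J, (cnt a (N / 2 ^ j) + 1 - 2 ^ j - cnt a (N / (2 * 2 ^ j))) : ℕ) : ℝ) ≤
      N / 2 + 1 / 2 + 2 ^ J := by
    refine le_trans ?_ h5
    have h9 : ((∑ j ∈ range J, (cnt a (N / 2 ^ j) + 1 - 2 ^ j - cnt a (N / (2 * 2 ^ j))) : ℕ) : ℝ) ≤
      ((N - (N / 2 - 2 ^ J) : ℕ) : ℝ) := by exact_mod_cast h1
    refine h9.trans (le_of_eq ?_)
    rw [Nat.cast_sub ((Nat.sub_le _ _).trans (Nat.div_le_self _ _))]
  have h10 : (cnt a N : ℝ) - cnt a (N / 2 ^ J) ≤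
      ((∑ j ∈ range J, (cnt a (N / 2 ^ j) + 1 - 2 ^ j - cnt a (N / (2 * 2 ^ j))) : ℕ) : ℝ) + (2 ^ J - 1) := by
    exact_mod_cast h3
  have h11 : (cnt a (N / 2 ^ J) : ℝ) ≤ (N : ℝ) / 2 ^ J := by
    refine (show (cnt a (N / 2 ^ J) : ℝ) ≤ ((N / 2 ^ J : ℕ) : ℝ) by exact_mod_cast h4).trans ?_
    have := Nat.cast_div_le (α := ℝ) (m := N) (n := 2 ^ J)
    push_cast at this
    exact this
  linarith

end Pool.Agent.Lib.MP_28bef0_nt
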