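import Mathlib

/-! The almost geometric sequence: separation of the sums of `r` and `r'` consecutive terms. -/

set_option autoImplicit false

namespace Pool.Agent.Lib.MP_28bef0_nt.GB

/-- `T₀ log 2 = 1 / 2` -/
noncomputable def T0 : ℝ := 1 / (2 * Real.log 2)

theorem log2_pos : 0 < Real.log 2 := Real.log_pos (by norm_num)

theorem T0_log2 : T0 * Real.log 2 = 1 / 2 := by
  have := log2_pos
  unfold T0
  field_simp

theorem T0_gt : 0.7213 < T0 := by
  have h1 := log2_pos
  have h2 := Real.log_two_lt_d9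
  unfold T0
  rw [lt_div_iff₀ (by linarith)]
  norm_num at h2 ⊢
  linarith

theorem T0_pos : 0 < T0 := by
  have := T0_gt
  norm_num at this
  linarith

theorem T0_lt : T0 < 1 := by
  have h1 := log2_pos
  have h2 := Real.log_two_gt_d9
  unfold T0
  rw [div_lt_one (by linarith)]
  norm_num at h2 ⊢
  linarith

/-- `log (e^u - 1) = log u + u / 2 + O(u²)` -/
theorem log_exp_sub {u : ℝ} (h0 : 0 < u) (h1 : u ≤ 1) :
    |Real.log (Real.exp u - 1) - Real.log u - u / 2| ≤ u ^ 2 := by
  have hlow : 1 + u + u ^ 2 / 2 ≤ Real.exp u := Real.quadratic_le_exp_of_nonneg h0.le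
  have hup : Real.exp u ≤ 1 + u + u ^ 2 / 2 + 2 / 9 * u ^ 3 := by
    have h2 := Real.exp_bound (x := u) (by rw [abs_of_pos h0]; exact h1) (n := 3) (by norm_num)
    have h3 : (∑ m ∈ Finset.range 3, u ^ m / (m.factorial : ℝ)) = 1 + u + u ^ 2 / 2 := by
      simp [Finset.sum_range_succ, Nat.factorial]
    rw [h3, abs_of_pos h0] at h2
    have h4 := (abs_le.1 h2).2
    norm_num [Nat.factorial] at h4
    linarith
  set w : ℝ := (Real.exp u - 1) / u with hw
  have hw1 : 1 + u / 2 ≤ w := by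
    rw [hw, le_div_iff₀ h0]
    nlinarith
  have hw2 : w ≤ 1 + u / 2 + 2 / 9 * u ^ 2 := by
    rw [hw, div_le_iff₀ h0]
    nlinarith
  have hw0 : 0 < w := by linarith
  have hlog : Real.log (Real.exp u - 1) = Real.log u + Real.log w := by
    rw [← Real.log_mul h0.ne' hw0.ne', hw]
    congr 1
    field_simp
  rw [hlog, abs_le]
  constructor
  · have h5 := Real.one_sub_inv_le_log_of_pos hw0
    have h6 : w⁻¹ ≤ (1 + u / 2)⁻¹ := inv_anti₀ (by linarith) hw1
    have h7 : (1 + u / 2)⁻¹ ≤ 1 - u / 2 + u ^ 2 / 4 := by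
      rw [inv_le_iff_one_le_mul₀ (by linarith)]
      nlinarith [pow_pos h0 3]
    nlinarith
  · have h5 := Real.log_le_sub_one_of_pos hw0
    nlinarith

/-- the sum of `r` consecutive terms, starting with the term number `k` -/
noncomputable def F (T : ℝ) (k r : ℕ) : ℝ :=
  4 * T * Real.exp (k / T) * (Real.exp (r / T) - 1) / (Real.exp (1 / T) - 1)

theorem exp_T {T : ℝ} (hT : 0 < T) : 0 < Real.exp (1 / T) - 1 := by
  have : 1 < Real.exp (1 / T) := Real.one_lt_exp_iff.2 (by positivity)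
  linarith

theorem exp_rT (T : ℝ) (r : ℕ) : Real.exp (r / T) = Real.exp (1 / T) ^ r := by
  rw [← Real.exp_nat_mul]
  congr 1
  ring

theorem F_lower {T : ℝ} (hT : 0 < T) (k r : ℕ) : 4 * T * r * Real.exp (k / T) ≤ F T k r := by
  have h := exp_T hT
  unfold F
  rw [le_div_iff₀ h, exp_rT T r]
  have h1 : 1 + (r : ℝ) * (Real.exp (1 / T) - 1) ≤ Real.exp (1 / T) ^ r :=
    one_add_mul_sub_le_pow (by linarith) r
  have h2 : 0 < 4 * T * Real.exp (k / T) := by positivity
  nlinarith

theorem F_ge {T : ℝ} (hT : 0 < T) (k r : ℕ) : 4 * T * r ≤ F T k r := by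
  refine le_trans ?_ (F_lower hT k r)
  have h1 : 1 ≤ Real.exp (k / T) := Real.one_le_exp (by positivity)
  have h2 : 0 ≤ 4 * T * r := by positivity
  nlinarith

theorem F_le {T : ℝ} (hT : 7 ≤ T) {k r : ℕ} (hr : 1 ≤ r)
    (h : (k : ℝ) + r ≤ T * Real.log 2) : F T k r ≤ 8 * T * r - 7 * r := by
  have hT0 : 0 < T := by linarith
  have hx := exp_T hT0
  set x : ℝ := Real.exp (1 / T) with hxdef
  have hgeom : x ^ r - 1 ≤ (x - 1) * (r * x ^ (r - 1)) := by
    have h1 : x ^ r - 1 = (∑ i ∈ Finset.range r, x ^ i) * (x - 1) := (geom_sum_mul x r).symm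
    rw [h1, mul_comm]
    refine mul_le_mul_of_nonneg_left ?_ hx.le
    calc ∑ i ∈ Finset.range r, x ^ i ≤ ∑ _i ∈ Finset.range r, x ^ (r - 1) := by
          refine Finset.sum_le_sum fun i hi => ?_
          rw [Finset.mem_range] at hi
          exact pow_le_pow_right₀ (by linarith) (by omega)
      _ = r * x ^ (r - 1) := by
          rw [Finset.sum_const, Finset.card_range, nsmul_eq_mul]
  have h2 : F T k r ≤ 4 * T * r * (Real.exp (k / T) * x ^ (r - 1)) := by
    unfold F
    rw [div_le_iff₀ hx, exp_rT T r, ← hxdef]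
    have h3 : 0 < 4 * T * Real.exp (k / T) := by positivity
    calc 4 * T * Real.exp (k / T) * (x ^ r - 1)
        ≤ 4 * T * Real.exp (k / T) * ((x - 1) * (r * x ^ (r - 1))) :=
          mul_le_mul_of_nonneg_left hgeom h3.le
      _ = 4 * T * r * (Real.exp (k / T) * x ^ (r - 1)) * (x - 1) := by ring
  have h4 : Real.exp (k / T) * x ^ (r - 1) * x ≤ 2 := by
    have h5 : Real.exp (k / T) * x ^ (r - 1) * x = Real.exp ((k + r) / T) := by
      rw [mul_assoc, ← pow_succ, Nat.sub_add_cancel hr, hxdef, ← exp_rT T r, ← Real.exp_add]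
      congr 1
      ring
    rw [h5, ← Real.le_log_iff_exp_le (by norm_num), div_le_iff₀ hT0]
    linarith
  have h6 : 1 + 1 / T ≤ x := by
    have := Real.add_one_le_exp (1 / T)
    linarith
  have h7 : Real.exp (k / T) * x ^ (r - 1) ≤ 2 * T / (T + 1) := by
    rw [le_div_iff₀ (by linarith)]
    have h8 : 0 < Real.exp (k / T) * x ^ (r - 1) := by
      have : 0 < x := by linarith
      positivity
    have h9 : Real.exp (k / T) * x ^ (r - 1) * (1 + 1 / T) ≤ 2 :=
      (mul_le_mul_of_nonneg_left h6 h8.le).trans h4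
    have h10 : Real.exp (k / T) * x ^ (r - 1) * (T + 1) =
        (Real.exp (k / T) * x ^ (r - 1) * (1 + 1 / T)) * T := by
      field_simp
    rw [h10]
    nlinarith
  have h11 : 2 * T / (T + 1) ≤ 2 - 7 / (4 * T) := by
    rw [div_le_iff₀ (by linarith)]
    have h12 : (2 - 7 / (4 * T)) * (T + 1) = 2 * T + 2 - 7 / 4 - 7 / (4 * T) := by
      field_simp
      ring
    rw [h12]
    have h13 : 7 / (4 * T) ≤ 1 / 4 := by
      rw [div_le_iff₀ (by linarith)]
      linarith
    linarith
  have hr0 : (0 : ℝ) < r := by exact_mod_cast hr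
  calc F T k r ≤ 4 * T * r * (Real.exp (k / T) * x ^ (r - 1)) := h2
    _ ≤ 4 * T * r * (2 - 7 / (4 * T)) :=
        mul_le_mul_of_nonneg_left (h7.trans h11) (by positivity)
    _ = 8 * T * r - 7 * r := by
        field_simp
        ring

theorem log_F {T : ℝ} (hT : 0 < T) (k : ℕ) {r : ℕ} (hr : 1 ≤ r) :
    Real.log (F T k r) = Real.log (4 * T / (Real.exp (1 / T) - 1)) + k / T +
      Real.log (Real.exp (r / T) - 1) := by
  have h1 := exp_T hT
  have hr0 : (0 : ℝ) < r := by exact_mod_cast hr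
  have h2 : 0 < Real.exp (r / T) - 1 := by
    have : 1 < Real.exp (r / T) := Real.one_lt_exp_iff.2 (by positivity)
    linarith
  have h3 : F T k r = 4 * T / (Real.exp (1 / T) - 1) * Real.exp (k / T) *
      (Real.exp (r / T) - 1) := by
    unfold F
    field_simp
  rw [h3, Real.log_mul (by positivity) h2.ne', Real.log_mul (by positivity) (Real.exp_pos _).ne',
    Real.log_exp]

theorem sep_int {n : ℤ} {μ : ℝ} (h0 : 0 < μ) (h1 : μ < 1 / 2) :
    μ ≤ |(n : ℝ) + μ| := by
  rcases le_or_gt 0 n with h | h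
  · have : (0 : ℝ) ≤ n := by exact_mod_cast h
    rw [abs_of_nonneg (by linarith)]
    linarith
  · have h2 : n ≤ -1 := by omega
    have : (n : ℝ) ≤ -1 := by exact_mod_cast h2
    rw [abs_of_neg (by linarith)]
    linarith

/-- The arithmetic core: for `r < r' < 2 r` the phases are separated. -/
theorem phase {r r' : ℕ} (h1 : r < r') (h2 : r' < 2 * r) (n : ℤ) :
    0.54 / (r' : ℝ) ≤ |(n : ℝ) + T0 * (Real.log r - Real.log r') + ((r : ℝ) - r') / 2| := by
  have hr2 : 2 ≤ r := by omega
  have hr0 : (0 : ℝ) < r := by exact_mod_cast (by omega : 0 < r)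
  have hr0' : (0 : ℝ) < r' := by exact_mod_cast (by omega : 0 < r')
  have hr2' : (2 : ℝ) ≤ r := by exact_mod_cast hr2
  have hlt : (r : ℝ) < r' := by exact_mod_cast h1
  have hlt2 : (r' : ℝ) < 2 * r := by exact_mod_cast h2
  have hT := T0_gt
  have hTp := T0_pos
  norm_num at hT
  -- `lam = T0 log (r'/r)` lies in `(0, 1/2)`
  set lam : ℝ := T0 * (Real.log r' - Real.log r) with hlam
  have hlam0 : 0 < lam := mul_pos hTp (sub_pos.2 (Real.log_lt_log hr0 hlt))
  have hlam1 : lam < 1 / 2 := by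
    rw [← T0_log2, hlam]
    refine mul_lt_mul_of_pos_left ?_ hTp
    have h3 : Real.log r' < Real.log (2 * r) := Real.log_lt_log hr0' hlt2
    rw [Real.log_mul (by norm_num) hr0.ne'] at h3
    linarith
  rcases Nat.even_or_odd' (r' - r) with ⟨t, ht | ht⟩
  · -- even difference
    have h3 : (r' : ℝ) = r + 2 * t := by
      have : r' = r + 2 * t := by omega
      exact_mod_cast this
    have ht1 : (1 : ℝ) ≤ t := by exact_mod_cast (by omega : 1 ≤ t)
    have h4 : (n : ℝ) + T0 * (Real.log r - Real.log r') + ((r : ℝ) - r') / 2 =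
        -(((-n + t : ℤ) : ℝ) + lam) := by
      rw [hlam, h3]
      push_cast
      ring
    rw [h4, abs_neg]
    refine le_trans ?_ (sep_int hlam0 hlam1)
    have h5 : 1 - (r' / r : ℝ)⁻¹ ≤ Real.log (r' / r) :=
      Real.one_sub_inv_le_log_of_pos (by positivity)
    rw [Real.log_div hr0'.ne' hr0.ne', inv_div] at h5
    have h6 : 2 / (r' : ℝ) ≤ 1 - r / r' := by
      rw [div_le_iff₀ hr0', sub_mul, div_mul_cancel₀ _ hr0'.ne']
      linarith
    calc 0.54 / (r' : ℝ) ≤ T0 * (2 / r') := by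
          rw [mul_div_assoc', div_le_div_iff_of_pos_right hr0']
          norm_num
          linarith
      _ ≤ lam := mul_le_mul_of_nonneg_left (h6.trans h5) hTp.le
  · -- odd difference
    have h3 : (r' : ℝ) = r + 2 * t + 1 := by
      have : r' = r + 2 * t + 1 := by omega
      exact_mod_cast this
    have h4 : (n : ℝ) + T0 * (Real.log r - Real.log r') + ((r : ℝ) - r') / 2 =
        ((n - t - 1 : ℤ) : ℝ) + (1 / 2 - lam) := by
      rw [hlam, h3]
      push_cast
      ring
    rw [h4]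
    refine le_trans ?_ (sep_int (by linarith) (by linarith))
    have h5 : 1 - (2 * r / r' : ℝ)⁻¹ ≤ Real.log (2 * r / r') :=
      Real.one_sub_inv_le_log_of_pos (by positivity)
    rw [Real.log_div (by positivity) hr0'.ne', Real.log_mul (by norm_num) hr0.ne', inv_div] at h5
    have h6 : 1 / 2 - lam = T0 * (Real.log 2 + Real.log r - Real.log r') := by
      rw [← T0_log2, hlam]
      ring
    rw [h6]
    refine le_trans ?_ (mul_le_mul_of_nonneg_left h5 hTp.le)
    have h7 : 1 - (r' : ℝ) / (2 * r) = (2 * r - r') / (2 * r) := by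
      field_simp
    rw [h7, mul_div_assoc', div_le_div_iff₀ hr0' (by positivity)]
    have h8 : (2 * (r : ℝ) - 1) ≤ (2 * r - r') * r' := by
      have h9 : (1 : ℝ) ≤ 2 * r - r' := by
        have : r' + 1 ≤ 2 * r := by omega
        have : ((r' + 1 : ℕ) : ℝ) ≤ ((2 * r : ℕ) : ℝ) := by exact_mod_cast this
        push_cast at this
        linarith
      nlinarith
    have h10 : 0.54 * (2 * (r : ℝ)) ≤ T0 * (2 * r - 1) := by
      norm_num
      nlinarith
    calc 0.54 * (2 * (r : ℝ)) ≤ T0 * (2 * r - 1) := h10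
      _ ≤ T0 * ((2 * r - r') * r') := mul_le_mul_of_nonneg_left h8 hTp.le
      _ = T0 * (2 * r - r') * r' := by ring

end Pool.Agent.Lib.MP_28bef0_nt.GB
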