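import Mathlib

/-! Simultaneous Dirichlet approximation. -/

set_option autoImplicit false

namespace Pool.Agent.Lib.MP_28bef0_nt.GB

theorem dirichlet {ι : Type} [Fintype ι] (α : ι → ℝ) {Q : ℕ} (hQ : 0 < Q) :
    ∃ q : ℕ, 1 ≤ q ∧ q ≤ Q ^ Fintype.card ι ∧ ∀ i, ∃ m : ℤ, |(q : ℝ) * α i - m| ≤ 1 / Q := by
  classical
  have hQ' : (0 : ℝ) < Q := by exact_mod_cast hQ
  have hb : ∀ (j : ℕ) (i : ι), ⌊(Q : ℝ) * Int.fract ((j : ℝ) * α i)⌋₊ < Q := by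
    intro j i
    rw [Nat.floor_lt (mul_nonneg hQ'.le (Int.fract_nonneg _))]
    calc (Q : ℝ) * Int.fract ((j : ℝ) * α i) < Q * 1 :=
          mul_lt_mul_of_pos_left (Int.fract_lt_one _) hQ'
      _ = Q := mul_one _
  let f : Fin (Q ^ Fintype.card ι + 1) → ι → Fin Q := fun j i => ⟨_, hb j i⟩
  obtain ⟨j1, j2, hne, heq⟩ := Fintype.exists_ne_map_eq_of_card_lt f (by
    rw [Fintype.card_fin, Fintype.card_fun, Fintype.card_fin]
    exact Nat.lt_succ_self _)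
  have key : ∀ j j' : Fin (Q ^ Fintype.card ι + 1), j < j' → f j = f j' →
      ∃ q : ℕ, 1 ≤ q ∧ q ≤ Q ^ Fintype.card ι ∧
        ∀ i, ∃ m : ℤ, |(q : ℝ) * α i - m| ≤ 1 / Q := by
    intro j j' hlt h
    have hlt' : (j : ℕ) < (j' : ℕ) := hlt
    refine ⟨(j' : ℕ) - (j : ℕ), by omega, by have := j'.isLt; omega, fun i => ?_⟩
    refine ⟨⌊((j' : ℕ) : ℝ) * α i⌋ - ⌊((j : ℕ) : ℝ) * α i⌋, ?_⟩
    have h1 : ⌊(Q : ℝ) * Int.fract (((j : ℕ) : ℝ) * α i)⌋₊ =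
        ⌊(Q : ℝ) * Int.fract (((j' : ℕ) : ℝ) * α i)⌋₊ := by
      have := congrFun h i
      exact congrArg Fin.val this
    set x : ℝ := Int.fract (((j : ℕ) : ℝ) * α i) with hx
    set y : ℝ := Int.fract (((j' : ℕ) : ℝ) * α i) with hy
    have hx0 : 0 ≤ (Q : ℝ) * x := mul_nonneg hQ'.le (Int.fract_nonneg _)
    have hy0 : 0 ≤ (Q : ℝ) * y := mul_nonneg hQ'.le (Int.fract_nonneg _)
    have h2 := Nat.floor_le hx0
    have h3 := Nat.lt_floor_add_one ((Q : ℝ) * x)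
    have h4 := Nat.floor_le hy0
    have h5 := Nat.lt_floor_add_one ((Q : ℝ) * y)
    rw [h1] at h2 h3
    have h6 : |(Q : ℝ) * y - Q * x| ≤ 1 := by
      rw [abs_le]
      constructor <;> linarith
    have h7 : (((j' : ℕ) - (j : ℕ) : ℕ) : ℝ) * α i -
        ((⌊((j' : ℕ) : ℝ) * α i⌋ - ⌊((j : ℕ) : ℝ) * α i⌋ : ℤ) : ℝ) = y - x := by
      have h8 := Int.self_sub_floor (((j' : ℕ) : ℝ) * α i)
      have h9 := Int.self_sub_floor (((j : ℕ) : ℝ) * α i)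
      rw [← hx] at h9
      rw [← hy] at h8
      rw [Nat.cast_sub hlt'.le]
      push_cast
      rw [← h8, ← h9]
      ring
    rw [h7, le_div_iff₀ hQ']
    calc |y - x| * Q = |(Q : ℝ) * y - Q * x| := by
          rw [← mul_sub, abs_mul, abs_of_pos hQ', mul_comm]
      _ ≤ 1 := h6
  rcases lt_or_gt_of_ne hne with h | h
  · exact key j1 j2 h heq
  · exact key j2 j1 h heq.symm

end Pool.Agent.Lib.MP_28bef0_nt.GB
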