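import Pool.Agent.Lib.MP_28bef0_nt.GBStage2

/-! The infinite sequence. -/

set_option autoImplicit false

open Finset

namespace Pool.Agent.Lib.MP_28bef0_nt.GB

/-- the bounds of the stages -/
def Bs (s : ℕ) : ℕ := 2 ^ (43 * 2 ^ s)

theorem Bs_pos (s : ℕ) : 1 ≤ Bs s := Nat.one_le_two_pow

theorem Bs_mono {s t : ℕ} (h : s ≤ t) : Bs s ≤ Bs t := by
  unfold Bs
  refine Nat.pow_le_pow_right (by norm_num) ?_
  exact Nat.mul_le_mul_left _ (Nat.pow_le_pow_right (by norm_num) h)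

theorem Bs_gt (s : ℕ) : s < Bs s := by
  unfold Bs
  have h1 : s < 2 ^ s := Nat.lt_two_pow_self
  have h2 : 2 ^ s ≤ 43 * 2 ^ s := by omega
  have h3 : 43 * 2 ^ s < 2 ^ (43 * 2 ^ s) := Nat.lt_two_pow_self
  omega

theorem growth (s : ℕ) :
    16 * (1 + (1000 * (2 ^ s) ^ 3 + (2 ^ s + 1) * (2 * (2 ^ s * Bs s + 1) * 3 ^ 2 ^ s + 1)) *
      (200 * (2 ^ s) ^ 2) ^ (PP (2 ^ s)).card) ≤ Bs (s + 1) := by
  have hcard := card_PP s
  have hd : (PP (2 ^ s)).card ≤ 2 ^ s := by
    have h8 : PP (2 ^ s) ⊆ Icc 1 (2 ^ s) := by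
      intro p hp
      unfold PP at hp
      rw [mem_filter, mem_range] at hp
      rw [mem_Icc]
      exact ⟨hp.2.one_lt.le, by omega⟩
    have := card_le_card h8
    rw [Nat.card_Icc, Nat.add_sub_cancel] at this
    exact this
  set d := (PP (2 ^ s)).card with hddef
  set H := 2 ^ s with hH
  set B := Bs s with hB
  set x := 3 ^ H with hx
  set Q := (200 * H ^ 2) ^ d with hQ
  have hs : s < H := Nat.lt_two_pow_self
  have hH1 : 1 ≤ H := Nat.one_le_two_pow
  have hB1 : 1 ≤ B := Bs_pos s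
  have hx1 : 1 ≤ x := Nat.one_le_pow _ _ (by norm_num)
  have hQ1 : 1 ≤ Q := Nat.one_le_pow _ _ (by positivity)
  -- the sizes
  have q1 : Q ≤ 2 ^ (22 * H) := by
    have h1 : 200 * H ^ 2 ≤ 2 ^ (8 + 2 * s) := by
      rw [pow_add, mul_comm 2 s, pow_mul, ← hH]
      exact Nat.mul_le_mul_right _ (by norm_num)
    calc Q ≤ (2 ^ (8 + 2 * s)) ^ d := Nat.pow_le_pow_left h1 _
      _ = 2 ^ ((8 + 2 * s) * d) := (pow_mul _ _ _).symm
      _ ≤ 2 ^ (22 * H) := by
        refine Nat.pow_le_pow_right (by norm_num) ?_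
        have : (8 + 2 * s) * d = 8 * d + 2 * (s * d) := by ring
        omega
  have x1 : x ≤ 2 ^ (2 * H) := by
    rw [pow_mul]
    exact Nat.pow_le_pow_left (by norm_num) _
  set M := H ^ 3 * B * x with hM
  have hM1 : 1 ≤ M := Nat.mul_pos (Nat.mul_pos (by positivity) hB1) hx1
  have m1 : H ^ 3 ≤ M := by
    calc H ^ 3 = H ^ 3 * 1 * 1 := by ring
      _ ≤ H ^ 3 * B * x := Nat.mul_le_mul (Nat.mul_le_mul_left _ hB1) hx1
  have hHB : 1 ≤ H * B := Nat.mul_pos hH1 hB1
  have b1 : 2 * (H * B + 1) * x + 1 ≤ 8 * (H * B * x) := by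
    have h1 : x ≤ H * B * x := Nat.le_mul_of_pos_left _ hHB
    have h2 : 2 * (H * B + 1) * x = 2 * (H * B * x) + 2 * x := by ring
    omega
  have g1 : (H + 1) * (2 * (H * B + 1) * x + 1) ≤ 16 * M := by
    calc (H + 1) * (2 * (H * B + 1) * x + 1) ≤ (2 * H) * (8 * (H * B * x)) :=
          Nat.mul_le_mul (by omega) b1
      _ = 16 * (H * H * B * x) := by ring
      _ ≤ 16 * (H * (H * H * B * x)) :=
          Nat.mul_le_mul_left _ (Nat.le_mul_of_pos_left _ hH1)
      _ = 16 * M := by rw [hM]; ring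
  have t1 : 16 * (1 + (1000 * H ^ 3 + (H + 1) * (2 * (H * B + 1) * x + 1)) * Q) ≤
      2 ^ 14 * (M * Q) := by
    have h1 : 1000 * H ^ 3 + (H + 1) * (2 * (H * B + 1) * x + 1) ≤ 1016 * M := by omega
    have h2 : (1000 * H ^ 3 + (H + 1) * (2 * (H * B + 1) * x + 1)) * Q ≤ 1016 * M * Q :=
      Nat.mul_le_mul_right _ h1
    have h3 : 1016 * M * Q = 1016 * (M * Q) := by ring
    have h4 : 1 ≤ M * Q := Nat.mul_pos hM1 hQ1
    norm_num
    omega
  refine t1.trans ?_
  have e1 : M = 2 ^ (3 * s + 43 * H) * x := by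
    have e2 : (2 : ℕ) ^ (3 * s) = H ^ 3 := by
      rw [hH, ← pow_mul, mul_comm]
    rw [hM, hB, Bs, ← hH, pow_add, e2]
  calc 2 ^ 14 * (M * Q) ≤ 2 ^ 14 * ((2 ^ (3 * s + 43 * H) * 2 ^ (2 * H)) * 2 ^ (22 * H)) := by
        rw [e1]
        exact Nat.mul_le_mul_left _ (Nat.mul_le_mul (Nat.mul_le_mul_left _ x1) q1)
    _ = 2 ^ (14 + 3 * s + 67 * H) := by
        rw [← pow_add, ← pow_add, ← pow_add]
        congr 1
        ring
    _ ≤ Bs (s + 1) := by
        unfold Bs
        refine Nat.pow_le_pow_right (by norm_num) ?_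
        rw [pow_succ, ← hH]
        omega

theorem exists_family : ∃ S : ℕ → Finset ℕ, ∀ s, Stage (2 ^ s) (Bs s) (Bs (s + 1)) (S s) := by
  have h : ∀ s, ∃ S : Finset ℕ, Stage (2 ^ s) (Bs s) (Bs (s + 1)) S := fun s =>
    exists_stage Nat.one_le_two_pow (growth s)
  choose S hS using h
  exact ⟨S, hS⟩

section

variable {S : ℕ → Finset ℕ}

theorem ge_of_mem (hS : ∀ s, Stage (2 ^ s) (Bs s) (Bs (s + 1)) (S s)) {s t x : ℕ} (hst : s ≤ t)
    (hx : x ∈ S t) : 2 ^ s * Bs s < x := by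
  refine lt_of_le_of_lt ?_ ((hS t).lo x hx)
  exact Nat.mul_le_mul (Nat.pow_le_pow_right (by norm_num) hst) (Bs_mono hst)

theorem le_of_mem (hS : ∀ s, Stage (2 ^ s) (Bs s) (Bs (s + 1)) (S s)) {s t x : ℕ} (hst : t < s)
    (hx : x ∈ S t) : x ≤ Bs s := ((hS t).hi x hx).trans (Bs_mono hst)

theorem lt_of_stage (hS : ∀ s, Stage (2 ^ s) (Bs s) (Bs (s + 1)) (S s)) {s t x y : ℕ} (hst : s < t)
    (hx : x ∈ S s) (hy : y ∈ S t) : x < y := by
  have h1 := le_of_mem hS hst hx
  have h2 := ge_of_mem hS le_rfl hy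
  have h3 : Bs t ≤ 2 ^ t * Bs t := Nat.le_mul_of_pos_left _ (by positivity)
  omega

theorem stage_nonempty (hS : ∀ s, Stage (2 ^ s) (Bs s) (Bs (s + 1)) (S s)) (s : ℕ) :
    ∃ x, x ∈ S s := by
  obtain ⟨N, _, h1, h2⟩ := (hS s).dens
  have : 0 < (S s).card := by omega
  exact card_pos.1 this

variable {a : ℕ → ℕ}

theorem image_eq_blk (hS : ∀ s, Stage (2 ^ s) (Bs s) (Bs (s + 1)) (S s)) (ha : StrictMono a)
    (har : ∀ x, (∃ s, x ∈ S s) ↔ ∃ n, a n = x) {i j s : ℕ} (hij : i < j) (hi : a i ∈ S s)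
    (hj : a (j - 1) ∈ S s) : (Ico i j).image a = blk (S s) (a i) (a (j - 1)) := by
  ext z
  unfold blk
  rw [mem_image, mem_filter]
  constructor
  · rintro ⟨m, hm, rfl⟩
    rw [mem_Ico] at hm
    have h1 : a i ≤ a m := ha.monotone hm.1
    have h2 : a m ≤ a (j - 1) := ha.monotone (by omega)
    obtain ⟨t, ht⟩ := (har (a m)).2 ⟨m, rfl⟩
    rcases lt_trichotomy t s with h | h | h
    · have := lt_of_stage hS h ht hi
      omega
    · subst h
      exact ⟨ht, h1, h2⟩
    · have := lt_of_stage hS h hj ht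
      omega
  · rintro ⟨hz, h1, h2⟩
    obtain ⟨m, rfl⟩ := (har z).1 ⟨s, hz⟩
    have h3 := ha.le_iff_le.1 h1
    have h4 := ha.le_iff_le.1 h2
    exact ⟨m, by rw [mem_Ico]; omega, rfl⟩

theorem sum_image_a (ha : StrictMono a) (i j : ℕ) :
    ∑ m ∈ Ico i j, a m = ∑ z ∈ (Ico i j).image a, z := by
  rw [sum_image (fun x _ y _ h => ha.injective h)]

theorem card_image_a (ha : StrictMono a) (i j : ℕ) : ((Ico i j).image a).card = j - i := by
  rw [card_image_of_injective _ ha.injective, Nat.card_Ico]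

theorem early_block (hS : ∀ s, Stage (2 ^ s) (Bs s) (Bs (s + 1)) (S s)) (ha : StrictMono a)
    (har : ∀ x, (∃ s, x ∈ S s) ↔ ∃ n, a n = x) {i j s : ℕ} (hij : i < j) (hi : a i ∉ S s)
    (hj : a (j - 1) ∈ S s) :
    ((S s).filter (fun z => z ≤ a (j - 1))).card ≤ j - i := by
  rw [← card_image_a ha i j]
  refine card_le_card ?_
  intro z hz
  rw [mem_filter] at hz
  obtain ⟨m, rfl⟩ := (har z).1 ⟨s, hz.1⟩
  obtain ⟨t, ht⟩ := (har (a i)).2 ⟨i, rfl⟩
  have h1 : a i ≤ a (j - 1) := ha.monotone (by omega)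
  have h2 : a i < a m := by
    rcases lt_trichotomy t s with h | h | h
    · exact lt_of_stage hS h ht hz.1
    · subst h
      exact absurd ht hi
    · have := lt_of_stage hS h hj ht
      omega
  have h3 := ha.lt_iff_lt.1 h2
  have h4 := ha.le_iff_le.1 hz.2
  rw [mem_image]
  exact ⟨m, by rw [mem_Ico]; omega, rfl⟩

/-- the sum of a block whose last term is in the stage `s` -/
theorem sum_le_stage (hS : ∀ s, Stage (2 ^ s) (Bs s) (Bs (s + 1)) (S s)) (ha : StrictMono a)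
    (har : ∀ x, (∃ s, x ∈ S s) ↔ ∃ n, a n = x) {i j s : ℕ} (hj : a (j - 1) ∈ S s) :
    ∑ m ∈ Ico i j, a m ≤
      (j - i) * Bs s + ∑ z ∈ (S s).filter (fun z => z ≤ a (j - 1)), z := by
  classical
  rw [sum_image_a ha]
  set P := (Ico i j).image a with hP
  rw [← sum_filter_add_sum_filter_not P (fun z => z ∈ S s), add_comm]
  refine add_le_add ?_ ?_
  · have h1 : ∀ z ∈ P.filter (fun z => ¬ z ∈ S s), z ≤ Bs s := by
      intro z hz
      rw [mem_filter, hP, mem_image] at hz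
      obtain ⟨⟨m, hm, rfl⟩, hz2⟩ := hz
      rw [mem_Ico] at hm
      obtain ⟨t, ht⟩ := (har (a m)).2 ⟨m, rfl⟩
      have h2 : a m ≤ a (j - 1) := ha.monotone (by omega)
      rcases lt_trichotomy t s with h | h | h
      · exact le_of_mem hS h ht
      · subst h
        exact absurd ht hz2
      · have := lt_of_stage hS h hj ht
        omega
    calc ∑ z ∈ P.filter (fun z => ¬ z ∈ S s), z
        ≤ ∑ _z ∈ P.filter (fun z => ¬ z ∈ S s), Bs s := sum_le_sum h1
      _ = (P.filter (fun z => ¬ z ∈ S s)).card * Bs s := by rw [sum_const, smul_eq_mul]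
      _ ≤ (j - i) * Bs s := by
        refine Nat.mul_le_mul_right _ ?_
        rw [← card_image_a ha i j]
        exact card_le_card (filter_subset _ _)
  · refine sum_le_sum_of_subset ?_
    intro z hz
    rw [mem_filter, hP, mem_image] at hz
    obtain ⟨⟨m, hm, rfl⟩, hz2⟩ := hz
    rw [mem_Ico] at hm
    rw [mem_filter]
    exact ⟨hz2, ha.monotone (by omega)⟩

/-- the main lemma on block sums -/
theorem block_ne (hS : ∀ s, Stage (2 ^ s) (Bs s) (Bs (s + 1)) (S s)) (ha : StrictMono a)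
    (har : ∀ x, (∃ s, x ∈ S s) ↔ ∃ n, a n = x) {i j k l s s' : ℕ} (hij : i < j) (hkl : k < l)
    (hjl : j < l) (hj : a (j - 1) ∈ S s) (hl : a (l - 1) ∈ S s') (hr : j - i ≤ 2 ^ s)
    (hr' : l - k ≤ 2 ^ s') : ∑ m ∈ Ico i j, a m ≠ ∑ m ∈ Ico k l, a m := by
  have hyy : a (j - 1) < a (l - 1) := ha (by omega)
  have hlast : a (l - 1) ≤ ∑ m ∈ Ico k l, a m :=
    single_le_sum (f := fun m => a m) (fun _ _ => Nat.zero_le _) (by rw [mem_Ico]; omega)
  rcases lt_trichotomy s s' with h | h | h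
  · -- different stages
    have h1 : ∑ m ∈ Ico i j, a m ≤ (j - i) * Bs (s + 1) := by
      calc ∑ m ∈ Ico i j, a m ≤ ∑ _m ∈ Ico i j, Bs (s + 1) := by
            refine sum_le_sum fun m hm => ?_
            rw [mem_Ico] at hm
            exact (ha.monotone (show m ≤ j - 1 by omega)).trans ((hS s).hi _ hj)
        _ = (j - i) * Bs (s + 1) := by rw [sum_const, Nat.card_Ico, smul_eq_mul]
    have h2 : (j - i) * Bs (s + 1) ≤ 2 ^ s' * Bs s' :=
      Nat.mul_le_mul (hr.trans (Nat.pow_le_pow_right (by norm_num) h.le)) (Bs_mono h)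
    have h3 := (hS s').lo _ hl
    omega
  · subst h
    -- it suffices that few terms of the stage are at most `a (j - 1)`
    have hsmall : ((S s).filter (fun z => z ≤ a (j - 1))).card ≤ 2 ^ s →
        ∑ m ∈ Ico i j, a m ≠ ∑ m ∈ Ico k l, a m := by
      intro hc
      have h1 := (hS s).early _ hj _ hl hyy hc
      have h2 := sum_le_stage hS ha har (i := i) hj
      have h3 : (j - i) * Bs s ≤ 2 ^ s * Bs s := Nat.mul_le_mul_right _ hr
      omega
    by_cases hi : a i ∈ S s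
    · by_cases hk : a k ∈ S s
      · rw [sum_image_a ha i j, sum_image_a ha k l]
        have e1 := image_eq_blk hS ha har hij hi hj
        have e2 := image_eq_blk hS ha har hkl hk hl
        have c1 := card_image_a ha i j
        have c2 := card_image_a ha k l
        rw [e1] at c1 ⊢
        rw [e2] at c2 ⊢
        exact (hS s).main _ hi _ hj _ hk _ hl (ha.monotone (by omega)) (ha.monotone (by omega)) hyy
          (by omega) (by omega)
      · refine hsmall ?_
        refine le_trans (card_le_card ?_) ((early_block hS ha har hkl hk hl).trans hr')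
        intro z hz
        rw [mem_filter] at hz ⊢
        exact ⟨hz.1, by omega⟩
    · exact hsmall ((early_block hS ha har hij hi hj).trans hr)
  · have := lt_of_stage hS h hl hj
    omega

/-- equal right ends -/
theorem left_eq (hpos : ∀ n, 0 < a n) {i k j : ℕ} (hij : i < j) (hkj : k < j)
    (h : ∑ m ∈ Ico i j, a m = ∑ m ∈ Ico k j, a m) : i = k := by
  have key : ∀ i k : ℕ, i < k → k < j → ∑ m ∈ Ico k j, a m < ∑ m ∈ Ico i j, a m := by
    intro i k hik hkj
    rw [← sum_Ico_consecutive a hik.le hkj.le]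
    have : 0 < ∑ m ∈ Ico i k, a m :=
      sum_pos (fun m _ => hpos m) (by rw [nonempty_Ico]; exact hik)
    omega
  rcases lt_trichotomy i k with h1 | h1 | h1
  · have := key i k h1 hkj
    omega
  · exact h1
  · have := key k i h1 hij
    omega

end

/-- **The sequence.** -/
theorem growing : ∃ a : ℕ → ℕ, StrictMono a ∧ (∀ n, 0 < a n) ∧
    (∀ N₀ : ℕ, ∃ N, N₀ ≤ N ∧ ∃ P : Finset ℕ, (∀ z ∈ P, z ∈ Icc 1 N ∧ z ∈ Set.range a) ∧
      N ≤ 24 * P.card) ∧
    ∀ i j k l : ℕ, i < j → k < l →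
      ((j - i : ℕ) : ℝ) ≤ Real.log (a (j - 1)) / 60 →
      ((l - k : ℕ) : ℝ) ≤ Real.log (a (l - 1)) / 60 →
      ∑ m ∈ Ico i j, a m = ∑ m ∈ Ico k l, a m → i = k ∧ j = l := by
  classical
  obtain ⟨S, hS⟩ := exists_family
  set p : ℕ → Prop := fun x => ∃ s, x ∈ S s with hp
  have hinf : (Set.ofPred p).Infinite := by
    refine Set.infinite_of_forall_exists_gt fun n => ?_
    obtain ⟨x, hx⟩ := stage_nonempty hS n
    refine ⟨x, ⟨n, hx⟩, ?_⟩
    have h1 := (hS n).lo x hx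
    have h2 := Bs_gt n
    have h3 : Bs n ≤ 2 ^ n * Bs n := Nat.le_mul_of_pos_left _ (by positivity)
    omega
  set a : ℕ → ℕ := Nat.nth p with ha'
  have ha : StrictMono a := Nat.nth_strictMono hinf
  have har : ∀ x, (∃ s, x ∈ S s) ↔ ∃ n, a n = x := by
    intro x
    have h1 := Nat.range_nth_of_infinite hinf
    constructor
    · intro hx
      have h2 : x ∈ Set.range (Nat.nth p) := by
        rw [h1]
        exact hx
      exact h2
    · intro hx
      have h2 : x ∈ Set.range (Nat.nth p) := hx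
      rw [h1] at h2
      exact h2
  have hpos : ∀ n, 0 < a n := by
    intro n
    obtain ⟨s, hs⟩ := (har (a n)).2 ⟨n, rfl⟩
    have := (hS s).lo _ hs
    omega
  refine ⟨a, ha, hpos, ?_, ?_⟩
  · intro N₀
    obtain ⟨N, h1, h2, h3⟩ := (hS N₀).dens
    have h4 := Bs_gt N₀
    have h5 : Bs N₀ ≤ 2 ^ N₀ * Bs N₀ := Nat.le_mul_of_pos_left _ (by positivity)
    refine ⟨N, by omega, S N₀, fun z hz => ⟨?_, (har z).1 ⟨N₀, hz⟩⟩, h2⟩
    rw [mem_Icc]
    have := (hS N₀).lo z hz
    exact ⟨by omega, h1 z hz⟩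
  · intro i j k l hij hkl hr hr' hsum
    obtain ⟨s, hs⟩ := (har (a (j - 1))).2 ⟨_, rfl⟩
    obtain ⟨s', hs'⟩ := (har (a (l - 1))).2 ⟨_, rfl⟩
    have hlen : ∀ r t y : ℕ, y ∈ S t → (r : ℝ) ≤ Real.log y / 60 → r ≤ 2 ^ t := by
      intro r t y hy hr
      have h1 := (hS t).hi y hy
      have h0 := (hS t).lo y hy
      have hy0 : (0 : ℝ) < y := by exact_mod_cast (by omega : 0 < y)
      have h2 : Real.log y ≤ Real.log (Bs (t + 1)) :=
        Real.log_le_log hy0 (by exact_mod_cast h1)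
      have h3 : Real.log (Bs (t + 1)) = (86 * 2 ^ t) * Real.log 2 := by
        unfold Bs
        push_cast
        rw [Real.log_pow]
        push_cast
        ring
      have h4 := Real.log_two_lt_d9
      have h5 : (r : ℝ) ≤ 2 ^ t := by
        have h6 : (0 : ℝ) < 2 ^ t := by positivity
        have h8 : Real.log 2 ≤ 60 / 86 := by
          norm_num at h4 ⊢
          linarith
        have h7 : (86 * (2 : ℝ) ^ t) * Real.log 2 ≤ (86 * 2 ^ t) * (60 / 86) :=
          mul_le_mul_of_nonneg_left h8 (by positivity)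
        have h9 : (86 * (2 : ℝ) ^ t) * (60 / 86) = 60 * 2 ^ t := by ring
        linarith
      exact_mod_cast h5
    have hlen1 := hlen _ _ _ hs hr
    have hlen2 := hlen _ _ _ hs' hr'
    rcases lt_trichotomy j l with h | h | h
    · exact absurd hsum (block_ne hS ha har hij hkl h hs hs' hlen1 hlen2)
    · subst h
      exact ⟨left_eq hpos hij hkl hsum, rfl⟩
    · exact absurd hsum.symm (block_ne hS ha har hkl hij h hs' hs hlen2 hlen1)

end Pool.Agent.Lib.MP_28bef0_nt.GB
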