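import Pool.Agent.Lib.MP_28bef0_nt.GBCore

/-! Separation of the sums of consecutive terms. -/

set_option autoImplicit false

namespace Pool.Agent.Lib.MP_28bef0_nt.GB

/-- the hypotheses on the parameter `T` -/
structure Good (H : ℕ) (T : ℝ) : Prop where
  pos : 1 ≤ H
  large : 1000 * (H : ℝ) ^ 3 ≤ T
  app : ∀ r : ℕ, 1 ≤ r → r ≤ H → ∃ m : ℤ, |T * Real.log r - T0 * Real.log r - m| ≤ 1 / (200 * H)

theorem Good.T_large {H : ℕ} {T : ℝ} (h : Good H T) : 1000 ≤ T := by
  have h1 : (1 : ℝ) ≤ H := by exact_mod_cast h.pos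
  have h2 : (1 : ℝ) ≤ (H : ℝ) ^ 3 := one_le_pow₀ h1
  linarith [h.large]

theorem Good.T_pos {H : ℕ} {T : ℝ} (h : Good H T) : 0 < T := by
  linarith [h.T_large]

theorem sep_lt {H : ℕ} {T : ℝ} (hT : Good H T) {k l r r' : ℕ} (hr : 1 ≤ r) (hrr : r < r')
    (hr' : r' ≤ H) (hk : (k : ℝ) + r ≤ T * Real.log 2) :
    2 ≤ |F T k r - F T l r'| := by
  by_contra hcon
  rw [not_le] at hcon
  have hT0 := hT.T_pos
  have hT1 := hT.T_large
  have hH1 : (1 : ℝ) ≤ H := by exact_mod_cast hT.pos
  have hH3 : (1 : ℝ) ≤ (H : ℝ) ^ 2 := one_le_pow₀ hH1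
  have hr0 : (1 : ℝ) ≤ r := by exact_mod_cast hr
  have hr0' : (1 : ℝ) ≤ r' := by exact_mod_cast (by omega : 1 ≤ r')
  have hrH' : (r' : ℝ) ≤ H := by exact_mod_cast hr'
  have hrr' : (r : ℝ) < r' := by exact_mod_cast hrr
  have hf' := F_ge hT0 l r'
  have hf := F_le (by linarith) hr hk
  have habs := abs_lt.1 hcon
  -- `r' < 2 r`
  have h2r : r' < 2 * r := by
    by_contra h
    rw [not_lt] at h
    have h1 : (2 : ℝ) * r ≤ r' := by exact_mod_cast h
    nlinarith
  have hfl : 4 * T * r' - 2 < F T k r := by linarith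
  have hpos1 : 0 < 4 * T * (r' : ℝ) - 2 := by nlinarith
  have hfp : 0 < F T k r := by linarith
  have hfp' : 0 < F T l r' := by linarith
  -- difference of the logarithms
  have hlog : |Real.log (F T k r) - Real.log (F T l r')| ≤ 2 / (4 * T * r' - 2) := by
    rw [abs_le]
    constructor
    · have h1 := Real.log_le_sub_one_of_pos (div_pos hfp' hfp)
      rw [Real.log_div hfp'.ne' hfp.ne'] at h1
      have h2 : F T l r' / F T k r - 1 = (F T l r' - F T k r) / F T k r := by
        field_simp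
      have h3 : (F T l r' - F T k r) / F T k r ≤ 2 / (4 * T * r' - 2) :=
        div_le_div₀ (by norm_num) (by linarith) hpos1 hfl.le
      linarith
    · have h1 := Real.log_le_sub_one_of_pos (div_pos hfp hfp')
      rw [Real.log_div hfp.ne' hfp'.ne'] at h1
      have h2 : F T k r / F T l r' - 1 = (F T k r - F T l r') / F T l r' := by
        field_simp
      have h3 : (F T k r - F T l r') / F T l r' ≤ 2 / (4 * T * r' - 2) :=
        div_le_div₀ (by norm_num) (by linarith) hpos1 (by linarith)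
      linarith
  -- expansion of the logarithms
  have hu : ∀ s : ℕ, 1 ≤ s → s ≤ H → |Real.log (Real.exp (s / T) - 1) -
      (Real.log s - Real.log T) - (s : ℝ) / (2 * T)| ≤ (H : ℝ) ^ 2 / T ^ 2 := by
    intro s hs1 hsH
    have hs0 : (1 : ℝ) ≤ s := by exact_mod_cast hs1
    have hsH' : (s : ℝ) ≤ H := by exact_mod_cast hsH
    have hle : (s : ℝ) / T ≤ 1 := by
      rw [div_le_one hT0]
      have h1 : (H : ℝ) ≤ (H : ℝ) ^ 3 := by
        calc (H : ℝ) = H * 1 := (mul_one _).symm
          _ ≤ H * (H : ℝ) ^ 2 := mul_le_mul_of_nonneg_left hH3 (by linarith)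
          _ = (H : ℝ) ^ 3 := by ring
      have h2 := hT.large
      linarith
    have h1 := log_exp_sub (u := (s : ℝ) / T) (by positivity) hle
    rw [Real.log_div (by positivity) hT0.ne'] at h1
    have h2 : (s : ℝ) / T / 2 = (s : ℝ) / (2 * T) := by
      field_simp
    rw [h2] at h1
    refine h1.trans ?_
    rw [div_pow]
    exact div_le_div_of_nonneg_right (pow_le_pow_left₀ (by linarith) hsH' 2) (by positivity)
  obtain ⟨m, hm⟩ := hT.app r hr (by omega)
  obtain ⟨m', hm'⟩ := hT.app r' (by omega) hr'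
  have hu1 := hu r hr (by omega)
  have hu2 := hu r' (by omega) hr'
  rw [log_F hT0 k hr, log_F hT0 l (by omega : 1 ≤ r')] at hlog
  set X : ℝ := Real.log (Real.exp (r / T) - 1) with hX
  set X' : ℝ := Real.log (Real.exp (r' / T) - 1) with hX'
  -- multiply everything with `T`
  have e0 : |((k : ℝ) - l) + T * (X - X')| ≤ T * (2 / (4 * T * r' - 2)) := by
    have h1 : ((k : ℝ) - l) + T * (X - X') =
        T * (Real.log (4 * T / (Real.exp (1 / T) - 1)) + k / T + X -
          (Real.log (4 * T / (Real.exp (1 / T) - 1)) + l / T + X')) := by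
      field_simp
      ring
    rw [h1, abs_mul, abs_of_pos hT0]
    exact mul_le_mul_of_nonneg_left hlog hT0.le
  have e1 : |T * X - T * (Real.log r - Real.log T) - r / 2| ≤ (H : ℝ) ^ 2 / T := by
    have h1 : T * X - T * (Real.log r - Real.log T) - r / 2 =
        T * (X - (Real.log r - Real.log T) - (r : ℝ) / (2 * T)) := by
      field_simp
    rw [h1, abs_mul, abs_of_pos hT0]
    calc T * |X - (Real.log r - Real.log T) - (r : ℝ) / (2 * T)| ≤ T * ((H : ℝ) ^ 2 / T ^ 2) :=
          mul_le_mul_of_nonneg_left hu1 hT0.le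
      _ = (H : ℝ) ^ 2 / T := by field_simp
  have e2 : |T * X' - T * (Real.log r' - Real.log T) - r' / 2| ≤ (H : ℝ) ^ 2 / T := by
    have h1 : T * X' - T * (Real.log r' - Real.log T) - r' / 2 =
        T * (X' - (Real.log r' - Real.log T) - (r' : ℝ) / (2 * T)) := by
      field_simp
    rw [h1, abs_mul, abs_of_pos hT0]
    calc T * |X' - (Real.log r' - Real.log T) - (r' : ℝ) / (2 * T)| ≤ T * ((H : ℝ) ^ 2 / T ^ 2) :=
          mul_le_mul_of_nonneg_left hu2 hT0.le
      _ = (H : ℝ) ^ 2 / T := by field_simp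
  have hph := phase hrr h2r ((k : ℤ) - l + m - m')
  have hexp : (((k : ℤ) - l + m - m' : ℤ) : ℝ) + T0 * (Real.log r - Real.log r') +
      ((r : ℝ) - r') / 2 =
      (((k : ℝ) - l) + T * (X - X')) - (T * X - T * (Real.log r - Real.log T) - r / 2) +
      (T * X' - T * (Real.log r' - Real.log T) - r' / 2) -
      (T * Real.log r - T0 * Real.log r - m) + (T * Real.log r' - T0 * Real.log r' - m') := by
    push_cast
    ring
  rw [hexp] at hph
  have htri : |(((k : ℝ) - l) + T * (X - X')) - (T * X - T * (Real.log r - Real.log T) - r / 2) +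
      (T * X' - T * (Real.log r' - Real.log T) - r' / 2) -
      (T * Real.log r - T0 * Real.log r - m) + (T * Real.log r' - T0 * Real.log r' - m')| ≤
      T * (2 / (4 * T * r' - 2)) + (H : ℝ) ^ 2 / T + (H : ℝ) ^ 2 / T + 1 / (200 * H) +
        1 / (200 * H) := by
    have a0 := abs_le.1 e0
    have a1 := abs_le.1 e1
    have a2 := abs_le.1 e2
    have a3 := abs_le.1 hm
    have a4 := abs_le.1 hm'
    rw [abs_le]
    constructor <;> linarith [a0.1, a0.2, a1.1, a1.2, a2.1, a2.2, a3.1, a3.2, a4.1, a4.2]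
  -- numerical bounds
  have b1 : T * (2 / (4 * T * r' - 2)) ≤ 1 / (2 * r') + 1 / T := by
    rw [mul_div_assoc', div_add_div _ _ (by positivity) hT0.ne', div_le_div_iff₀ hpos1 (by positivity)]
    nlinarith
  have b2 : (H : ℝ) ^ 2 / T ≤ 0.001 / H := by
    rw [div_le_div_iff₀ hT0 (by linarith)]
    norm_num
    have h1 := hT.large
    have h2 : (H : ℝ) ^ 2 * H = (H : ℝ) ^ 3 := by ring
    rw [h2]
    linarith
  have b3 : 1 / T ≤ 0.001 / H := by
    refine le_trans ?_ b2
    exact div_le_div_of_nonneg_right hH3 hT0.le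
  have b4 : (1 : ℝ) / (200 * H) = 0.005 / H := by
    have : (H : ℝ) ≠ 0 := by linarith
    field_simp
    norm_num
  have b5 : (0.013 : ℝ) / H ≤ 0.013 / r' :=
    div_le_div_of_nonneg_left (by norm_num) (by linarith) hrH'
  have b6 : (1 : ℝ) / (2 * r') = 0.5 / r' := by
    have : (r' : ℝ) ≠ 0 := by linarith
    field_simp
    norm_num
  have b7 : (0.5 : ℝ) / r' + 0.013 / r' < 0.54 / r' := by
    rw [← add_div]
    exact div_lt_div_of_pos_right (by norm_num) (by linarith)
  have b8 : (0.001 : ℝ) / H + 0.001 / H + 0.001 / H + 0.005 / H + 0.005 / H = 0.013 / H := by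
    rw [← add_div, ← add_div, ← add_div, ← add_div]
    norm_num
  have := hph.trans htri
  rw [b4] at this
  linarith

theorem sep_eq {T : ℝ} (hT : 1000 ≤ T) {k l r : ℕ} (hr : 1 ≤ r) (hkl : k < l) :
    F T k r + 2 ≤ F T l r := by
  have hT0 : 0 < T := by linarith
  have hr0 : (1 : ℝ) ≤ r := by exact_mod_cast hr
  have h1 : F T l r = F T k r * Real.exp (((l : ℝ) - k) / T) := by
    unfold F
    have h2 : Real.exp (l / T) = Real.exp (k / T) * Real.exp (((l : ℝ) - k) / T) := by
      rw [← Real.exp_add]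
      congr 1
      ring
    rw [h2]
    ring
  have h3 : (1 : ℝ) ≤ (l : ℝ) - k := by
    have : ((k + 1 : ℕ) : ℝ) ≤ l := by exact_mod_cast hkl
    push_cast at this
    linarith
  have h4 : 1 + 1 / T ≤ Real.exp (((l : ℝ) - k) / T) := by
    have h5 := Real.add_one_le_exp (((l : ℝ) - k) / T)
    have h6 : 1 / T ≤ ((l : ℝ) - k) / T := div_le_div_of_nonneg_right h3 hT0.le
    linarith
  have h7 := F_ge hT0 k r
  have h8 : 0 ≤ F T k r := le_trans (by positivity) h7
  have h9 : F T k r * (1 + 1 / T) ≤ F T l r := by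
    rw [h1]
    exact mul_le_mul_of_nonneg_left h4 h8
  have h10 : 4 * (r : ℝ) ≤ F T k r * (1 / T) := by
    rw [mul_one_div, le_div_iff₀ hT0]
    linarith
  nlinarith

/-- all sums of at most `H` consecutive terms are at least `2` apart -/
theorem sep {H : ℕ} {T : ℝ} (hT : Good H T) {k l r r' : ℕ} (hr : 1 ≤ r) (hr' : 1 ≤ r')
    (hrH : r ≤ H) (hrH' : r' ≤ H) (hk : (k : ℝ) + r ≤ T * Real.log 2)
    (hl : (l : ℝ) + r' ≤ T * Real.log 2) (hne : ¬ (k = l ∧ r = r')) :
    2 ≤ |F T k r - F T l r'| := by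
  rcases lt_trichotomy r r' with h | h | h
  · exact sep_lt hT hr h hrH' hk
  · subst h
    rcases lt_trichotomy k l with h | h | h
    · have := sep_eq hT.T_large hr h
      rw [abs_sub_comm]
      exact le_trans (by linarith) (le_abs_self _)
    · exact absurd ⟨h, rfl⟩ hne
    · have := sep_eq hT.T_large hr h
      exact le_trans (by linarith) (le_abs_self _)
  · rw [abs_sub_comm]
    exact sep_lt hT hr' h hrH hl

end Pool.Agent.Lib.MP_28bef0_nt.GB
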