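import Pool.Agent.Lib.MP_28bef0_nt.GBDir
import Pool.Agent.Lib.MP_28bef0_nt.GBSep

/-! One stage of the construction. -/

set_option autoImplicit false

open Finset

namespace Pool.Agent.Lib.MP_28bef0_nt.GB

/-- the primes up to `H` -/
def PP (H : ℕ) : Finset ℕ := (range (H + 1)).filter Nat.Prime

/-- existence of a good parameter -/
theorem exists_T {H : ℕ} (hH : 1 ≤ H) {G : ℕ} (hG : 1000 * H ^ 3 ≤ G) :
    ∃ T : ℝ, Good H T ∧ (G : ℝ) ≤ T ∧ T ≤ 1 + G * (200 * H ^ 2) ^ (PP H).card := by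
  obtain ⟨q, hq1, hq2, hq⟩ := dirichlet (fun p : PP H => (G : ℝ) * Real.log ((p : ℕ) : ℝ))
    (Q := 200 * H ^ 2) (by positivity)
  rw [Fintype.card_coe] at hq2
  have hq1' : (1 : ℝ) ≤ q := by exact_mod_cast hq1
  have hq2' : (q : ℝ) ≤ (200 * H ^ 2) ^ (PP H).card := by exact_mod_cast hq2
  have hG0 : (0 : ℝ) ≤ G := Nat.cast_nonneg G
  have hG1 : 1000 * (H : ℝ) ^ 3 ≤ G := by exact_mod_cast hG
  have hT0 := T0_pos
  have hT1 := T0_lt
  have hH0 : (1 : ℝ) ≤ H := by exact_mod_cast hH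
  have hle : (G : ℝ) ≤ G * q := by nlinarith
  have key : ∀ r : ℕ, 1 ≤ r → r ≤ H → ∃ m : ℤ,
      |(q : ℝ) * (G * Real.log r) - m| ≤ Nat.log 2 r * (1 / ((200 * H ^ 2 : ℕ) : ℝ)) := by
    intro r
    induction r using Nat.strong_induction_on with
    | _ r ih =>
      intro h1 h2
      rcases Nat.eq_or_lt_of_le h1 with h | h
      · refine ⟨0, ?_⟩
        rw [← h]
        simp
      · have hp := Nat.minFac_prime (n := r) (by omega)
        set p := r.minFac with hpdef
        have hpr : p * (r / p) = r := Nat.mul_div_cancel' (Nat.minFac_dvd r)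
        have hp2 := hp.two_le
        have hr' : 1 ≤ r / p := Nat.div_pos (Nat.minFac_le (by omega)) (by omega)
        have hlt : r / p < r := Nat.div_lt_self (by omega) (by omega)
        obtain ⟨m, hm⟩ := ih (r / p) hlt hr' (by omega)
        have hpP : p ∈ PP H := by
          unfold PP
          rw [mem_filter, mem_range]
          exact ⟨by have := Nat.minFac_le (n := r) (by omega); omega, hp⟩
        obtain ⟨m', hm'⟩ := hq ⟨p, hpP⟩
        refine ⟨m + m', ?_⟩
        have hlog : Real.log r = Real.log p + Real.log (r / p : ℕ) := by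
          rw [← Real.log_mul (by exact_mod_cast (by omega : p ≠ 0))
            (by exact_mod_cast (by omega : r / p ≠ 0))]
          congr 1
          exact_mod_cast hpr.symm
        have hl2 : Nat.log 2 (r / p) + 1 ≤ Nat.log 2 r := by
          have h3 : Nat.log 2 (r / p) ≤ Nat.log 2 (r / 2) :=
            Nat.log_mono_right (Nat.div_le_div_left hp2 (by norm_num))
          have h4 : Nat.log 2 (r / 2) = Nat.log 2 r - 1 := Nat.log_div_base 2 r
          have h5 : 1 ≤ Nat.log 2 r := by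
            rw [← Nat.log_pow (b := 2) (by norm_num) 1]
            exact Nat.log_mono_right (by omega)
          omega
        have hl3 : (Nat.log 2 (r / p) : ℝ) + 1 ≤ Nat.log 2 r := by exact_mod_cast hl2
        have hQ0 : 0 ≤ 1 / ((200 * H ^ 2 : ℕ) : ℝ) := by positivity
        have e1 : (q : ℝ) * (G * Real.log r) - ((m + m' : ℤ) : ℝ) =
            (q * (G * Real.log (r / p : ℕ)) - m) + (q * (G * Real.log p) - m') := by
          rw [hlog]
          push_cast
          ring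
        rw [e1]
        refine (abs_add_le _ _).trans ?_
        calc |(q : ℝ) * (G * Real.log (r / p : ℕ)) - m| + |(q : ℝ) * (G * Real.log p) - m'|
            ≤ Nat.log 2 (r / p) * (1 / ((200 * H ^ 2 : ℕ) : ℝ)) + 1 / ((200 * H ^ 2 : ℕ) : ℝ) :=
              add_le_add hm hm'
          _ = (Nat.log 2 (r / p) + 1) * (1 / ((200 * H ^ 2 : ℕ) : ℝ)) := by ring
          _ ≤ _ := mul_le_mul_of_nonneg_right hl3 hQ0
  refine ⟨T0 + G * q, ⟨hH, by linarith, ?_⟩, by linarith, ?_⟩
  · intro r h1 h2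
    obtain ⟨m, hm⟩ := key r h1 h2
    refine ⟨m, ?_⟩
    have h4 : (T0 + G * q) * Real.log r - T0 * Real.log r - m = q * (G * Real.log r) - m := by ring
    rw [h4]
    refine hm.trans ?_
    have h5 : (Nat.log 2 r : ℝ) ≤ H := by
      exact_mod_cast (Nat.log_le_self 2 r).trans h2
    push_cast
    rw [mul_one_div, div_le_div_iff₀ (by positivity) (by positivity)]
    nlinarith
  · have : (G : ℝ) * q ≤ G * (200 * H ^ 2) ^ (PP H).card := mul_le_mul_of_nonneg_left hq2' hG0
    linarith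

/-- `s π(2^s) ≤ 7 * 2^s` -/
theorem card_PP (s : ℕ) : s * (PP (2 ^ s)).card ≤ 7 * 2 ^ s := by
  set t := s / 2 with ht
  set P' := (PP (2 ^ s)).filter (fun p => 2 ^ t < p) with hP'
  have h1 : (PP (2 ^ s)).card ≤ P'.card + 2 ^ t := by
    have h2 : PP (2 ^ s) ⊆ P' ∪ Icc 1 (2 ^ t) := by
      intro p hp
      rw [mem_union, hP', mem_filter, mem_Icc]
      by_cases h : 2 ^ t < p
      · exact Or.inl ⟨hp, h⟩
      · right
        unfold PP at hp
        rw [mem_filter] at hp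
        exact ⟨hp.2.one_lt.le, by omega⟩
    refine (card_le_card h2).trans ((card_union_le _ _).trans ?_)
    rw [Nat.card_Icc, Nat.add_sub_cancel]
  have h2 : (2 ^ t) ^ P'.card ≤ 4 ^ 2 ^ s := by
    refine le_trans ?_ (primorial_le_four_pow (2 ^ s))
    calc (2 ^ t) ^ P'.card = ∏ _p ∈ P', 2 ^ t := by rw [prod_const]
      _ ≤ ∏ p ∈ P', p := by
          refine prod_le_prod (fun _ _ => Nat.zero_le _) fun p hp => ?_
          rw [hP', mem_filter] at hp
          exact hp.2.le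
      _ ≤ ∏ p ∈ PP (2 ^ s), p := by
          refine prod_le_prod_of_subset_of_one_le' (filter_subset _ _) fun p hp _ => ?_
          unfold PP at hp
          rw [mem_filter] at hp
          exact hp.2.one_lt.le
      _ = primorial (2 ^ s) := rfl
  have h3 : t * P'.card ≤ 2 * 2 ^ s := by
    rw [← pow_mul, show (4 : ℕ) = 2 ^ 2 by norm_num, ← pow_mul] at h2
    exact (Nat.pow_le_pow_iff_right (by norm_num)).1 h2
  have h4 : t ≤ 2 ^ t := Nat.lt_two_pow_self.le
  have h5 : 2 ^ t * 2 ^ t ≤ 2 ^ s := by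
    rw [← pow_add]
    exact Nat.pow_le_pow_right (by norm_num) (by omega)
  have h6 : s ≤ 2 * t + 1 := by omega
  have h7 : (PP (2 ^ s)).card ≤ 2 ^ s := by
    have h8 : PP (2 ^ s) ⊆ Icc 1 (2 ^ s) := by
      intro p hp
      unfold PP at hp
      rw [mem_filter, mem_range] at hp
      rw [mem_Icc]
      exact ⟨hp.2.one_lt.le, by omega⟩
    have := card_le_card h8
    rw [Nat.card_Icc] at this
    omega
  calc s * (PP (2 ^ s)).card ≤ (2 * t + 1) * (PP (2 ^ s)).card := Nat.mul_le_mul_right _ h6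
    _ = 2 * (t * (PP (2 ^ s)).card) + (PP (2 ^ s)).card := by ring
    _ ≤ 2 * (t * (P'.card + 2 ^ t)) + 2 ^ s := by
        have := Nat.mul_le_mul_left t h1
        omega
    _ = 2 * (t * P'.card) + 2 * (t * 2 ^ t) + 2 ^ s := by ring
    _ ≤ 2 * (2 * 2 ^ s) + 2 * 2 ^ s + 2 ^ s := by
        have h9 : t * 2 ^ t ≤ 2 ^ s := (Nat.mul_le_mul_right _ h4).trans h5
        omega
    _ = 7 * 2 ^ s := by ring

/-- the real partial sums -/
noncomputable def E (T : ℝ) (k : ℕ) : ℝ := 4 * T * Real.exp (k / T) / (Real.exp (1 / T) - 1)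

theorem F_eq {T : ℝ} (hT : 0 < T) (k r : ℕ) : F T k r = E T (k + r) - E T k := by
  have h := exp_T hT
  unfold F E
  have h2 : Real.exp (((k + r : ℕ) : ℝ) / T) = Real.exp (k / T) * Real.exp (r / T) := by
    rw [← Real.exp_add]
    congr 1
    push_cast
    ring
  rw [h2]
  field_simp

/-- the integer partial sums -/
noncomputable def ps (T : ℝ) (k : ℕ) : ℕ := ⌊E T k⌋₊

theorem E_nonneg {T : ℝ} (hT : 0 < T) (k : ℕ) : 0 ≤ E T k := by
  have h := exp_T hT
  unfold E
  positivity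

theorem ps_mono {T : ℝ} (hT : 0 < T) : Monotone (ps T) := by
  intro k l hkl
  unfold ps
  refine Nat.floor_mono ?_
  have h := exp_T hT
  unfold E
  refine div_le_div_of_nonneg_right ?_ h.le
  refine mul_le_mul_of_nonneg_left ?_ (by linarith)
  rw [Real.exp_le_exp]
  refine div_le_div_of_nonneg_right ?_ hT.le
  exact_mod_cast hkl

theorem ps_sub {T : ℝ} (hT : 0 < T) (k r : ℕ) :
    |(((ps T (k + r) - ps T k : ℕ) : ℝ)) - F T k r| < 1 := by
  rw [Nat.cast_sub (ps_mono hT (by omega)), F_eq hT]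
  unfold ps
  have h1 := Nat.floor_le (E_nonneg hT (k + r))
  have h2 := Nat.lt_floor_add_one (E T (k + r))
  have h3 := Nat.floor_le (E_nonneg hT k)
  have h4 := Nat.lt_floor_add_one (E T k)
  rw [abs_lt]
  constructor <;> linarith

/-- the elements of the long part -/
noncomputable def el (T : ℝ) (k : ℕ) : ℕ := 2 * (ps T (k + 1) - ps T k)

theorem sum_el {T : ℝ} (hT : 0 < T) (k r : ℕ) :
    ∑ i ∈ Ico k (k + r), el T i = 2 * (ps T (k + r) - ps T k) := by
  induction r with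
  | zero => simp
  | succ r ih =>
    rw [← add_assoc, sum_Ico_succ_top (by omega), ih]
    unfold el
    have h1 := ps_mono hT (show k ≤ k + r by omega)
    have h2 := ps_mono hT (show k + r ≤ k + r + 1 by omega)
    omega

theorem ps_ne {H : ℕ} {T : ℝ} (hT : Good H T) {k l r r' : ℕ} (hr : 1 ≤ r) (hr' : 1 ≤ r')
    (hrH : r ≤ H) (hrH' : r' ≤ H) (hk : k + r ≤ ⌊T * Real.log 2⌋₊)
    (hl : l + r' ≤ ⌊T * Real.log 2⌋₊) (hne : ¬ (k = l ∧ r = r')) :
    ps T (k + r) - ps T k ≠ ps T (l + r') - ps T l := by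
  intro heq
  have hT0 := hT.T_pos
  have hpos : 0 ≤ T * Real.log 2 := mul_nonneg hT0.le log2_pos.le
  have hfl := Nat.floor_le hpos
  have hk' : (k : ℝ) + r ≤ T * Real.log 2 := by
    refine le_trans ?_ hfl
    exact_mod_cast hk
  have hl' : (l : ℝ) + r' ≤ T * Real.log 2 := by
    refine le_trans ?_ hfl
    exact_mod_cast hl
  have h1 := sep hT hr hr' hrH hrH' hk' hl' hne
  have h2 := abs_lt.1 (ps_sub hT0 k r)
  have h3 := abs_lt.1 (ps_sub hT0 l r')
  rw [heq] at h2
  have h4 : |F T k r - F T l r'| < 2 := by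
    rw [abs_lt]
    constructor <;> linarith [h2.1, h2.2, h3.1, h3.2]
  linarith

theorem el_lt_succ {T : ℝ} (hT : 1000 ≤ T) (k : ℕ) : el T k < el T (k + 1) := by
  have hT0 : 0 < T := by linarith
  have h1 := sep_eq hT (k := k) (l := k + 1) (r := 1) le_rfl (by omega)
  have h2 := abs_lt.1 (ps_sub hT0 k 1)
  have h3 := abs_lt.1 (ps_sub hT0 (k + 1) 1)
  have h4 : ((ps T (k + 1) - ps T k : ℕ) : ℝ) < ((ps T (k + 1 + 1) - ps T (k + 1) : ℕ) : ℝ) := by
    linarith [h2.1, h2.2, h3.1, h3.2]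
  have h5 : ps T (k + 1) - ps T k < ps T (k + 1 + 1) - ps T (k + 1) := by exact_mod_cast h4
  unfold el
  omega

theorem el_strictMono {T : ℝ} (hT : 1000 ≤ T) : StrictMono (el T) :=
  strictMono_nat_of_lt_succ (el_lt_succ hT)

theorem el_gt {T : ℝ} (hT : 1000 ≤ T) (k : ℕ) : 8 * T - 2 < el T k := by
  have hT0 : 0 < T := by linarith
  have h1 := F_ge hT0 k 1
  have h2 := abs_lt.1 (ps_sub hT0 k 1)
  unfold el
  push_cast at h1 h2 ⊢
  linarith [h2.1]

theorem el_lt {T : ℝ} (hT : 1000 ≤ T) {k : ℕ} (hk : k < ⌊T * Real.log 2⌋₊) :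
    (el T k : ℝ) < 16 * T := by
  have hT0 : 0 < T := by linarith
  have hpos : 0 ≤ T * Real.log 2 := mul_nonneg hT0.le log2_pos.le
  have hfl := Nat.floor_le hpos
  have hk' : (k : ℝ) + (1 : ℕ) ≤ T * Real.log 2 := by
    refine le_trans ?_ hfl
    exact_mod_cast hk
  have h1 := F_le (by linarith) (le_refl 1) hk'
  have h2 := abs_lt.1 (ps_sub hT0 k 1)
  unfold el
  push_cast at h1 h2 ⊢
  linarith [h2.2]

/-- the long part of a stage -/
noncomputable def DD (T : ℝ) : Finset ℕ := (range ⌊T * Real.log 2⌋₊).image (el T)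

theorem card_DD {T : ℝ} (hT : 1000 ≤ T) : (DD T).card = ⌊T * Real.log 2⌋₊ := by
  unfold DD
  rw [card_image_of_injective _ (el_strictMono hT).injective, card_range]

theorem even_DD {T : ℝ} {x : ℕ} (hx : x ∈ DD T) : Even x := by
  unfold DD at hx
  rw [mem_image] at hx
  obtain ⟨k, _, rfl⟩ := hx
  unfold el
  exact even_two_mul _

theorem filter_DD {T : ℝ} (hT : 1000 ≤ T) {k l : ℕ} (hl : l < ⌊T * Real.log 2⌋₊) :
    (DD T).filter (fun z => el T k ≤ z ∧ z ≤ el T l) = (Ico k (l + 1)).image (el T) := by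
  have hm := el_strictMono hT
  ext z
  unfold DD
  rw [mem_filter, mem_image, mem_image]
  constructor
  · rintro ⟨⟨i, hi, rfl⟩, h1, h2⟩
    refine ⟨i, ?_, rfl⟩
    rw [mem_Ico]
    have h3 := hm.le_iff_le.1 h1
    have h4 := hm.le_iff_le.1 h2
    omega
  · rintro ⟨i, hi, rfl⟩
    rw [mem_Ico] at hi
    refine ⟨⟨i, by rw [mem_range]; omega, rfl⟩, hm.monotone hi.1, hm.monotone (by omega)⟩

theorem sum_DD {T : ℝ} (hT : 1000 ≤ T) {k l : ℕ} (hkl : k ≤ l) (hl : l < ⌊T * Real.log 2⌋₊) :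
    ∑ z ∈ (DD T).filter (fun z => el T k ≤ z ∧ z ≤ el T l), z =
      2 * (ps T (k + (l + 1 - k)) - ps T k) := by
  rw [filter_DD hT hl, sum_image (fun x _ y _ h => (el_strictMono hT).injective h)]
  have := sum_el (by linarith : 0 < T) k (l + 1 - k)
  rw [← this]
  congr 1
  congr 1
  omega

theorem card_filter_DD {T : ℝ} (hT : 1000 ≤ T) {k l : ℕ} (hl : l < ⌊T * Real.log 2⌋₊) :
    ((DD T).filter (fun z => el T k ≤ z ∧ z ≤ el T l)).card = l + 1 - k := by
  rw [filter_DD hT hl, card_image_of_injective _ (el_strictMono hT).injective, Nat.card_Ico]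

/-- blocks inside the long part have different sums -/
theorem DD_ne {H : ℕ} {T : ℝ} (hT : Good H T) {x y x' y' : ℕ} (hx : x ∈ DD T) (hy : y ∈ DD T)
    (hx' : x' ∈ DD T) (hy' : y' ∈ DD T) (hxy : x ≤ y) (hxy' : x' ≤ y') (hyy : y < y')
    (hc : ((DD T).filter (fun z => x ≤ z ∧ z ≤ y)).card ≤ H)
    (hc' : ((DD T).filter (fun z => x' ≤ z ∧ z ≤ y')).card ≤ H) :
    ∑ z ∈ (DD T).filter (fun z => x ≤ z ∧ z ≤ y), z ≠
      ∑ z ∈ (DD T).filter (fun z => x' ≤ z ∧ z ≤ y'), z := by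
  have hT1 := hT.T_large
  have hm := el_strictMono hT1
  have hmem : ∀ w ∈ DD T, ∃ k, k < ⌊T * Real.log 2⌋₊ ∧ el T k = w := by
    intro w hw
    unfold DD at hw
    rw [mem_image] at hw
    obtain ⟨k, hk, rfl⟩ := hw
    rw [mem_range] at hk
    exact ⟨k, hk, rfl⟩
  obtain ⟨k, hk, rfl⟩ := hmem x hx
  obtain ⟨l, hl, rfl⟩ := hmem y hy
  obtain ⟨k', hk', rfl⟩ := hmem x' hx'
  obtain ⟨l', hl', rfl⟩ := hmem y' hy'
  have hkl := hm.le_iff_le.1 hxy
  have hkl' := hm.le_iff_le.1 hxy'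
  have hll := hm.lt_iff_lt.1 hyy
  rw [card_filter_DD hT1 hl] at hc
  rw [card_filter_DD hT1 hl'] at hc'
  rw [sum_DD hT1 hkl hl, sum_DD hT1 hkl' hl']
  have := ps_ne hT (k := k) (l := k') (r := l + 1 - k) (r' := l' + 1 - k') (by omega) (by omega) hc hc'
    (by omega) (by omega) (by omega)
  omega

end Pool.Agent.Lib.MP_28bef0_nt.GB
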