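import Pool.Agent.Lib.MP_28bef0_nt.GBStage

/-! One stage of the construction: separators and long part. -/

set_option autoImplicit false

open Finset

namespace Pool.Agent.Lib.MP_28bef0_nt.GB

/-- the block of the elements of `S` between `x` and `y` -/
def blk (S : Finset ℕ) (x y : ℕ) : Finset ℕ := S.filter (fun z => x ≤ z ∧ z ≤ y)

/-- what is needed from a stage -/
structure Stage (H B B' : ℕ) (S : Finset ℕ) : Prop where
  lo : ∀ x ∈ S, H * B < x
  hi : ∀ x ∈ S, x ≤ B'
  early : ∀ y ∈ S, ∀ y' ∈ S, y < y' → (S.filter (fun z => z ≤ y)).card ≤ H →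
    H * B + ∑ z ∈ S.filter (fun z => z ≤ y), z < y'
  main : ∀ x ∈ S, ∀ y ∈ S, ∀ x' ∈ S, ∀ y' ∈ S, x ≤ y → x' ≤ y' → y < y' →
    (blk S x y).card ≤ H → (blk S x' y').card ≤ H → ∑ z ∈ blk S x y, z ≠ ∑ z ∈ blk S x' y', z
  dens : ∃ N, (∀ x ∈ S, x ≤ N) ∧ N ≤ 24 * S.card ∧ H * B < N

/-- combinatorial assembly -/
theorem assemble {H b C : ℕ} {U D : Finset ℕ} (hUb : ∀ x ∈ U, x < b)
    (hS : ∀ y ∈ insert b U, ∀ y' ∈ insert b (U ∪ D), y < y' →
      C + ∑ z ∈ (insert b U).filter (fun z => z ≤ y), z < y')
    (hD : ∀ z ∈ D, b < z)
    (hUe : ∀ x ∈ U, Even x) (hDe : ∀ x ∈ D, Even x) (hb : Odd b) (hcard : U.card = H)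
    (hne : ∀ x ∈ D, ∀ y ∈ D, ∀ x' ∈ D, ∀ y' ∈ D, x ≤ y → x' ≤ y' → y < y' →
      (blk D x y).card ≤ H → (blk D x' y').card ≤ H → ∑ z ∈ blk D x y, z ≠ ∑ z ∈ blk D x' y', z) :
    (∀ y ∈ insert b (U ∪ D), ∀ y' ∈ insert b (U ∪ D), y < y' →
      ((insert b (U ∪ D)).filter (fun z => z ≤ y)).card ≤ H →
      C + ∑ z ∈ (insert b (U ∪ D)).filter (fun z => z ≤ y), z < y') ∧
    (∀ x ∈ insert b (U ∪ D), ∀ y ∈ insert b (U ∪ D), ∀ x' ∈ insert b (U ∪ D),
      ∀ y' ∈ insert b (U ∪ D), x ≤ y → x' ≤ y' → y < y' →
      (blk (insert b (U ∪ D)) x y).card ≤ H → (blk (insert b (U ∪ D)) x' y').card ≤ H →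
      ∑ z ∈ blk (insert b (U ∪ D)) x y, z ≠ ∑ z ∈ blk (insert b (U ∪ D)) x' y', z) := by
  set S := insert b (U ∪ D) with hSdef
  have hmem : ∀ z, z ∈ S ↔ z = b ∨ z ∈ U ∨ z ∈ D := by
    intro z
    rw [hSdef, mem_insert, mem_union]
  have hnotD : ∀ w ∈ S, w ∉ D → w ≤ b := by
    intro w hw hwD
    rcases (hmem w).1 hw with rfl | h | h
    · exact le_rfl
    · exact (hUb w h).le
    · exact absurd h hwD
  -- separators: the next element is large
  have hsep : ∀ y ∈ S, ∀ y' ∈ S, y < y' → y ∉ D →
      C + ∑ z ∈ S.filter (fun z => z ≤ y), z < y' := by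
    intro y hy y' hy' hlt hyD
    have h1 : S.filter (fun z => z ≤ y) = (insert b U).filter (fun z => z ≤ y) := by
      have hyb := hnotD y hy hyD
      ext z
      rw [mem_filter, mem_filter, hmem, mem_insert]
      constructor
      · rintro ⟨h | h | h, h2⟩
        · exact ⟨Or.inl h, h2⟩
        · exact ⟨Or.inr h, h2⟩
        · have := hD z h
          omega
      · rintro ⟨h | h, h2⟩
        · exact ⟨Or.inl h, h2⟩
        · exact ⟨Or.inr (Or.inl h), h2⟩
    rw [h1]
    refine hS y ?_ y' hy' hlt
    rw [mem_insert]
    rcases (hmem y).1 hy with h | h | h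
    · exact Or.inl h
    · exact Or.inr h
    · exact absurd h hyD
  refine ⟨?_, ?_⟩
  · intro y hy y' hy' hlt hc
    refine hsep y hy y' hy' hlt ?_
    intro hyD
    have h1 : insert b U ⊆ S.filter (fun z => z ≤ y) := by
      intro z hz
      rw [mem_insert] at hz
      rw [mem_filter]
      have h2 := hD y hyD
      rcases hz with rfl | hz
      · exact ⟨(hmem _).2 (Or.inl rfl), h2.le⟩
      · exact ⟨(hmem _).2 (Or.inr (Or.inl hz)), by have := hUb z hz; omega⟩
    have h2 := card_le_card h1
    rw [card_insert_of_notMem (fun h => lt_irrefl _ (hUb b h)), hcard] at h2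
    omega
  · intro x hx y hy x' hx' y' hy' hxy hxy' hlt hc hc'
    by_cases hyD : y ∈ D
    swap
    · have h1 := hsep y hy y' hy' hlt hyD
      have h2 : ∑ z ∈ blk S x y, z ≤ ∑ z ∈ S.filter (fun z => z ≤ y), z := by
        refine sum_le_sum_of_subset ?_
        intro z hz
        unfold blk at hz
        rw [mem_filter] at hz ⊢
        exact ⟨hz.1, hz.2.2⟩
      have h3 : y' ≤ ∑ z ∈ blk S x' y', z := by
        refine single_le_sum (f := fun z => z) (fun _ _ => Nat.zero_le _) ?_
        unfold blk
        rw [mem_filter]
        exact ⟨hy', hxy', le_rfl⟩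
      omega
    have hy'D : y' ∈ D := by
      rcases (hmem y').1 hy' with rfl | h | h
      · have := hD y hyD
        omega
      · have := hD y hyD
        have := hUb y' h
        omega
      · exact h
    -- blocks starting in `D`
    have hblkD : ∀ w v, w ∈ D → blk S w v = blk D w v := by
      intro w v hw
      unfold blk
      ext z
      rw [mem_filter, mem_filter, hmem]
      have h1 := hD w hw
      constructor
      · rintro ⟨h | h | h, h2, h3⟩
        · omega
        · have := hUb z h
          omega
        · exact ⟨h, h2, h3⟩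
      · rintro ⟨h, h2⟩
        exact ⟨Or.inr (Or.inr h), h2⟩
    have hevenD : ∀ w v, w ∈ D → Even (∑ z ∈ blk S w v, z) := by
      intro w v hw
      rw [hblkD w v hw]
      refine even_sum _ ?_
      intro z hz
      unfold blk at hz
      rw [mem_filter] at hz
      exact hDe z hz.1
    have hoddS : ∀ w v, w ∈ S → w ∉ D → v ∈ D → Odd (∑ z ∈ blk S w v, z) := by
      intro w v hw hwD hv
      have hbmem : b ∈ blk S w v := by
        unfold blk
        rw [mem_filter]
        exact ⟨(hmem b).2 (Or.inl rfl), hnotD w hw hwD, (hD v hv).le⟩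
      rw [← add_sum_erase _ _ hbmem]
      refine hb.add_even ?_
      refine even_sum _ ?_
      intro z hz
      rw [mem_erase] at hz
      obtain ⟨hzb, hz⟩ := hz
      unfold blk at hz
      rw [mem_filter] at hz
      rcases (hmem z).1 hz.1 with h | h | h
      · exact absurd h hzb
      · exact hUe z h
      · exact hDe z h
    by_cases hxD : x ∈ D
    · by_cases hx'D : x' ∈ D
      · rw [hblkD x y hxD] at hc ⊢
        rw [hblkD x' y' hx'D] at hc' ⊢
        exact hne x hxD y hyD x' hx'D y' hy'D hxy hxy' hlt hc hc'
      · intro heq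
        have h1 := hevenD x y hxD
        rw [heq] at h1
        exact Nat.not_odd_iff_even.2 h1 (hoddS x' y' hx' hx'D hy'D)
    · by_cases hx'D : x' ∈ D
      · intro heq
        have h1 := hevenD x' y' hx'D
        rw [← heq] at h1
        exact Nat.not_odd_iff_even.2 h1 (hoddS x y hx hxD hyD)
      · -- both blocks contain `b`
        have hx'b := hnotD x' hx' hx'D
        set P := D.filter (fun z => z ≤ y) with hP
        have hsub1 : blk S x y ⊆ S.filter (fun z => z ≤ b) ∪ P := by
          intro z hz
          unfold blk at hz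
          rw [mem_filter] at hz
          rw [mem_union, mem_filter]
          by_cases hzb : z ≤ b
          · exact Or.inl ⟨hz.1, hzb⟩
          · right
            rw [hP, mem_filter]
            rcases (hmem z).1 hz.1 with h | h | h
            · omega
            · have := hUb z h
              omega
            · exact ⟨h, hz.2.2⟩
        have hs1 : ∑ z ∈ blk S x y, z ≤ ∑ z ∈ S.filter (fun z => z ≤ b), z + ∑ z ∈ P, z := by
          refine (sum_le_sum_of_subset hsub1).trans ?_
          have hdisj : Disjoint (S.filter (fun z => z ≤ b)) P := by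
            rw [disjoint_left]
            intro z hz hz'
            rw [mem_filter] at hz
            rw [hP, mem_filter] at hz'
            have := hD z hz'.1
            omega
          rw [sum_union hdisj]
        have hsub2 : insert y' P ⊆ blk S x' y' := by
          intro z hz
          unfold blk
          rw [mem_filter]
          rw [mem_insert] at hz
          rcases hz with rfl | hz
          · exact ⟨hy', hxy', le_rfl⟩
          · rw [hP, mem_filter] at hz
            have := hD z hz.1
            exact ⟨(hmem z).2 (Or.inr (Or.inr hz.1)), by omega, by omega⟩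
        have hs2 : y' + ∑ z ∈ P, z ≤ ∑ z ∈ blk S x' y', z := by
          rw [← sum_insert (f := fun z => z)]
          · exact sum_le_sum_of_subset hsub2
          · rw [hP, mem_filter]
            intro h
            omega
        have hbD : b ∉ D := fun h => lt_irrefl _ (hD b h)
        have := hsep b ((hmem b).2 (Or.inl rfl)) y' hy' (hD y' hy'D) hbD
        omega

/-- existence of a stage -/
theorem exists_stage {H B B' : ℕ} (hH : 1 ≤ H)
    (hB' : 16 * (1 + (1000 * H ^ 3 + (H + 1) * (2 * (H * B + 1) * 3 ^ H + 1)) *
      (200 * H ^ 2) ^ (PP H).card) ≤ B') :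
    ∃ S, Stage H B B' S := by
  set K : ℕ := H * B + 1 with hK
  set b : ℕ := 2 * K * 3 ^ H + 1 with hb
  set G : ℕ := 1000 * H ^ 3 + (H + 1) * b with hG
  obtain ⟨T, hT, hGT, hTG⟩ := exists_T hH (show 1000 * H ^ 3 ≤ G by omega)
  have hT1 := hT.T_large
  have hT0 := hT.T_pos
  set u : ℕ → ℕ := fun i => 2 * K * 3 ^ i with hu
  have hu0 : ∀ i, 0 < u i := fun i => by
    simp only [hu]
    have : 0 < 2 * K := by omega
    positivity
  have husucc : ∀ i, u (i + 1) = 3 * u i := fun i => by
    simp only [hu]
    ring
  have hum : StrictMono u := by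
    refine strictMono_nat_of_lt_succ fun i => ?_
    rw [husucc]
    have := hu0 i
    omega
  have husum : ∀ i, K + ∑ j ∈ range i, u j = K * 3 ^ i := by
    intro i
    induction i with
    | zero => simp
    | succ i ih =>
      rw [sum_range_succ, ← add_assoc, ih]
      simp only [hu]
      ring
  have hu2 : ∀ i, u i = 2 * (K * 3 ^ i) := fun i => by
    simp only [hu]
    ring
  have hbu : b = u H + 1 := rfl
  set U : Finset ℕ := (range H).image u with hU
  have hDbig : ∀ z ∈ DD T, (H + 1) * b < z := by
    intro z hz
    unfold DD at hz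
    rw [mem_image] at hz
    obtain ⟨k, _, rfl⟩ := hz
    have h1 := el_gt hT1 k
    have h2 : (((H + 1) * b : ℕ) : ℝ) ≤ G := by
      exact_mod_cast (by omega : (H + 1) * b ≤ G)
    have h3 : (((H + 1) * b : ℕ) : ℝ) < el T k := by linarith
    exact_mod_cast h3
  have hb1 : 1 ≤ b := by omega
  have hbHb : 2 * b ≤ (H + 1) * b := Nat.mul_le_mul_right _ (by omega)
  have hasm := assemble (H := H) (b := b) (C := H * B) (U := U) (D := DD T) ?_ ?_ ?_ ?_ ?_ ?_ ?_ ?_
  · refine ⟨insert b (U ∪ DD T), ?_, ?_, hasm.1, hasm.2, ?_⟩
    · intro x hx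
      rw [mem_insert, mem_union] at hx
      have hKu : ∀ i, K ≤ u i := by
        intro i
        rw [hu2]
        have : 1 ≤ 3 ^ i := Nat.one_le_pow _ _ (by omega)
        nlinarith
      have hKb : H * B < b := by
        have := hKu H
        omega
      rcases hx with rfl | hx | hx
      · exact hKb
      · rw [hU, mem_image] at hx
        obtain ⟨i, _, rfl⟩ := hx
        have := hKu i
        omega
      · have := hDbig x hx
        omega
    · intro x hx
      rw [mem_insert, mem_union] at hx
      have hpow : 1 ≤ (200 * H ^ 2) ^ (PP H).card := Nat.one_le_pow _ _ (by positivity)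
      have hGB : G ≤ G * (200 * H ^ 2) ^ (PP H).card := by nlinarith
      have hbB : b ≤ B' := by omega
      rcases hx with rfl | hx | hx
      · exact hbB
      · rw [hU, mem_image] at hx
        obtain ⟨i, hi, rfl⟩ := hx
        rw [mem_range] at hi
        have := hum hi
        omega
      · unfold DD at hx
        rw [mem_image] at hx
        obtain ⟨k, hk, rfl⟩ := hx
        rw [mem_range] at hk
        have h1 := el_lt hT1 hk
        have h2 : ((16 * (1 + G * (200 * H ^ 2) ^ (PP H).card) : ℕ) : ℝ) ≤ (B' : ℝ) := by
          exact_mod_cast hB'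
        push_cast at h2
        have h3 : (el T k : ℝ) ≤ (B' : ℝ) := by linarith
        exact_mod_cast h3
    · refine ⟨⌊16 * T⌋₊, ?_, ?_, ?_⟩
      · intro x hx
        rw [mem_insert, mem_union] at hx
        refine Nat.le_floor ?_
        have hbT : (b : ℝ) ≤ T := by
          refine le_trans ?_ hGT
          exact_mod_cast (by omega : b ≤ G)
        rcases hx with rfl | hx | hx
        · linarith
        · rw [hU, mem_image] at hx
          obtain ⟨i, hi, rfl⟩ := hx
          rw [mem_range] at hi
          have h1 := hum hi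
          have h2 : (u i : ℝ) ≤ b := by exact_mod_cast (by omega : u i ≤ b)
          linarith
        · unfold DD at hx
          rw [mem_image] at hx
          obtain ⟨k, hk, rfl⟩ := hx
          rw [mem_range] at hk
          exact (el_lt hT1 hk).le
      · have h1 : (DD T).card ≤ (insert b (U ∪ DD T)).card := by
          refine card_le_card ?_
          intro z hz
          rw [mem_insert, mem_union]
          exact Or.inr (Or.inr hz)
        rw [card_DD hT1] at h1
        refine le_trans ?_ (Nat.mul_le_mul_left 24 h1)
        have h2 := Real.log_two_gt_d9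
        have h3 := Nat.floor_le (show 0 ≤ 16 * T by linarith)
        have h4 := Nat.lt_floor_add_one (T * Real.log 2)
        have h5 : (⌊16 * T⌋₊ : ℝ) ≤ 24 * (⌊T * Real.log 2⌋₊ : ℝ) := by
          have h6 : T * 0.6931 ≤ T * Real.log 2 := by
            refine mul_le_mul_of_nonneg_left ?_ hT0.le
            norm_num at h2 ⊢
            linarith
          norm_num at h6
          linarith
        exact_mod_cast h5
      · have h1 : H * B + 1 ≤ ⌊16 * T⌋₊ := by
          refine Nat.le_floor ?_
          have h2 : H * B + 1 ≤ b := by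
            have : 1 ≤ 3 ^ H := Nat.one_le_pow _ _ (by omega)
            have : K ≤ 2 * K * 3 ^ H := by nlinarith
            omega
          have h3 : H * B + 1 ≤ G := by omega
          have h4 : ((H * B + 1 : ℕ) : ℝ) ≤ G := by exact_mod_cast h3
          linarith
        omega
  · intro x hx
    rw [hU, mem_image] at hx
    obtain ⟨i, hi, rfl⟩ := hx
    rw [mem_range] at hi
    have h1 := hum hi
    omega
  · intro y hy y' hy' hlt
    have hKpos : ∀ i, 1 ≤ K * 3 ^ i := fun i => Nat.mul_pos (by omega) (by positivity)
    rw [mem_insert] at hy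
    rcases hy with rfl | hy
    · -- `y = b`
      have hy'D : y' ∈ DD T := by
        rw [mem_insert, mem_union] at hy'
        rcases hy' with h | h | h
        · omega
        · rw [hU, mem_image] at h
          obtain ⟨i, hi, rfl⟩ := h
          rw [mem_range] at hi
          have := hum hi
          omega
        · exact h
      have h1 := hDbig y' hy'D
      have h2 : ∑ z ∈ (insert b U).filter (fun z => z ≤ b), z ≤ b + ∑ j ∈ range H, u j := by
        refine (sum_le_sum_of_subset (filter_subset _ _)).trans ?_
        have hbU : b ∉ U := by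
          rw [hU, mem_image]
          rintro ⟨i, hi, h⟩
          rw [mem_range] at hi
          have := hum hi
          omega
        rw [sum_insert hbU, hU, sum_image (fun x _ y _ h => hum.injective h)]
      have h3 := husum H
      have h4 := hu2 H
      have h5 := hKpos H
      omega
    · rw [hU, mem_image] at hy
      obtain ⟨i, hi, rfl⟩ := hy
      rw [mem_range] at hi
      have h2 : ∑ z ∈ (insert b U).filter (fun z => z ≤ u i), z ≤ ∑ j ∈ range (i + 1), u j := by
        have h3 : (insert b U).filter (fun z => z ≤ u i) ⊆ (range (i + 1)).image u := by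
          intro z hz
          rw [mem_filter, mem_insert] at hz
          rcases hz with ⟨h | h, h'⟩
          · have := hum hi
            omega
          · rw [hU, mem_image] at h
            obtain ⟨j, _, rfl⟩ := h
            rw [mem_image]
            have := hum.le_iff_le.1 h'
            exact ⟨j, by rw [mem_range]; omega, rfl⟩
        refine (sum_le_sum_of_subset h3).trans ?_
        rw [sum_image (fun x _ y _ h => hum.injective h)]
      have h3 := husum (i + 1)
      have h4 := hu2 (i + 1)
      have h5 := hKpos (i + 1)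
      have h6 : u (i + 1) ≤ y' := by
        rw [mem_insert, mem_union] at hy'
        have h7 := hum.monotone (show i + 1 ≤ H by omega)
        rcases hy' with h | h | h
        · omega
        · rw [hU, mem_image] at h
          obtain ⟨j, hj, rfl⟩ := h
          have := hum.lt_iff_lt.1 hlt
          exact hum.monotone (by omega)
        · have := hDbig y' h
          omega
      omega
  · intro z hz
    have h1 := hDbig z hz
    omega
  · intro x hx
    rw [hU, mem_image] at hx
    obtain ⟨i, _, rfl⟩ := hx
    rw [hu2]
    exact even_two_mul _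
  · intro x hx
    exact even_DD hx
  · rw [hb, mul_assoc]
    exact odd_two_mul_add_one _
  · rw [hU, card_image_of_injective _ hum.injective, card_range]
  · intro x hx y hy x' hx' y' hy' hxy hxy' hlt hc hc'
    exact DD_ne hT hx hy hx' hy' hxy hxy' hlt hc hc'

end Pool.Agent.Lib.MP_28bef0_nt.GB
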